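import Pool.Agent.W76.MO.Split

/-!
# The key inequality for the cells
-/

set_option autoImplicit false

namespace Pool.Agent.W76.MO

open Finset
open scoped Classical

namespace Env

variable (E : Env)

/-- total mass of first order at `n` -/
noncomputable def tau (j n : ℕ) : ℝ := (1 / (n : ℝ)) * TT n.primeFactors (fun p => p * E.g j p)

/-- total mass at `n` -/
noncomputable def mass (j n : ℕ) : ℝ := (1 / (n : ℝ)) * ∏ p ∈ n.primeFactors, (1 + p * E.g j p)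

/-- the complementary sizes -/
noncomputable def gl (j i p : ℕ) : ℝ :=
  (if (2 : ℝ) ^ (3 / 5 * (i : ℝ)) < p then E.gu j p else 0) +
  (if (2 : ℝ) ^ (1 / 20 * (i : ℝ)) < p then E.gh j p else 0)

lemma gl_add_gs (j i p : ℕ) : E.gl j i p + E.gs j i p = E.g j p := by
  unfold gl gs g
  by_cases h1 : (2 : ℝ) ^ (3 / 5 * (i : ℝ)) < p
  · by_cases h2 : (2 : ℝ) ^ (1 / 20 * (i : ℝ)) < p
    · rw [if_pos h1, if_pos h2, if_neg (not_le.2 h1), if_neg (not_le.2 h2)]; ring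
    · rw [if_pos h1, if_neg h2, if_neg (not_le.2 h1), if_pos (not_lt.1 h2)]; ring
  · by_cases h2 : (2 : ℝ) ^ (1 / 20 * (i : ℝ)) < p
    · rw [if_neg h1, if_pos h2, if_pos (not_lt.1 h1), if_neg (not_le.2 h2)]; ring
    · rw [if_neg h1, if_neg h2, if_pos (not_lt.1 h1), if_pos (not_lt.1 h2)]; ring

/-- the large part of the mass at `n` -/
noncomputable def big (j i n : ℕ) : ℝ :=
  ∑ p ∈ n.primeFactors.filter (fun p : ℕ => (2 : ℝ) ^ (3 / 5 * (i : ℝ)) < p),
      E.gu j p * (E.E2 j (n / p) / ((n / p : ℕ) : ℝ)) +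
  ∑ q ∈ n.primeFactors.filter (fun q : ℕ => (2 : ℝ) ^ (1 / 20 * (i : ℝ)) < q),
      E.gh j q * (E.E2 j (n / q) / ((n / q : ℕ) : ℝ))

lemma big_eq (j i n : ℕ) (hn : Squarefree n) :
    (1 / (n : ℝ)) * ∑ p ∈ n.primeFactors, (p * E.gl j i p) *
      ∏ q ∈ n.primeFactors.erase p, (1 + 2 * (q * E.gl j i q + q * E.gs j i q)) = E.big j i n := by
  unfold big
  rw [sum_filter, sum_filter, ← sum_add_distrib, mul_sum]
  refine sum_congr rfl fun p hp => ?_
  have hpp := Nat.prime_of_mem_primeFactors hp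
  have hp0 : (p : ℝ) ≠ 0 := by exact_mod_cast hpp.ne_zero
  have hn0 : (n : ℝ) ≠ 0 := by exact_mod_cast hn.ne_zero
  have h1 : ∏ q ∈ n.primeFactors.erase p, (1 + 2 * (q * E.gl j i q + q * E.gs j i q)) =
      E.E2 j (n / p) := by
    unfold E2
    rw [primeFactors_div n p hn hp]
    refine prod_congr rfl fun q _ => ?_
    rw [← E.gl_add_gs j i q]
    ring
  rw [h1, cast_div_prime n p hp]
  unfold gl
  have h2 : ∀ c : ℝ, (1 / (n : ℝ)) * (p * c * E.E2 j (n / p)) = c * (E.E2 j (n / p) / ((n : ℝ) / p)) := by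
    intro c
    field_simp
  by_cases k1 : (2 : ℝ) ^ (3 / 5 * (i : ℝ)) < p
  · by_cases k2 : (2 : ℝ) ^ (1 / 20 * (i : ℝ)) < p
    · simp only [if_pos k1, if_pos k2]
      rw [h2]; ring
    · simp only [if_pos k1, if_neg k2]
      rw [h2]; ring
  · by_cases k2 : (2 : ℝ) ^ (1 / 20 * (i : ℝ)) < p
    · simp only [if_neg k1, if_pos k2]
      rw [h2]; ring
    · simp only [if_neg k1, if_neg k2]
      rw [h2]; ring

lemma gs_nonneg (j i p : ℕ) (h1 : 0 ≤ E.gu j p) (h2 : 0 ≤ E.gh j p) : 0 ≤ E.gs j i p := by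
  unfold gs
  split_ifs <;> linarith

lemma gl_nonneg (j i p : ℕ) (h1 : 0 ≤ E.gu j p) (h2 : 0 ≤ E.gh j p) : 0 ≤ E.gl j i p := by
  unfold gl
  split_ifs <;> linarith

/-- pointwise bounds -/
lemma point (j i n : ℕ) (hu : ∀ p, 0 ≤ E.gu j p) (hh : ∀ p, 0 ≤ E.gh j p) (hn : Squarefree n) :
    E.tau j n ≤ E.big j i n + (1 / (n : ℝ)) * ∏ p ∈ n.primeFactors, (1 + 2 * (p * E.gs j i p)) ∧
    E.mass j n ≤ 2 * E.big j i n +
      (1 / (n : ℝ)) * ∏ p ∈ n.primeFactors, (1 + 2 * (p * E.gs j i p)) ∧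
    0 ≤ E.tau j n := by
  have hs := split_all n.primeFactors (fun p => p * E.gl j i p) (fun p => p * E.gs j i p)
    (fun p => mul_nonneg (Nat.cast_nonneg p) (E.gl_nonneg j i p (hu p) (hh p)))
    (fun p => mul_nonneg (Nat.cast_nonneg p) (E.gs_nonneg j i p (hu p) (hh p)))
  have e1 : (fun p : ℕ => (p : ℝ) * E.gl j i p + (p : ℝ) * E.gs j i p) = fun p : ℕ => (p : ℝ) * E.g j p := by
    funext p
    rw [← E.gl_add_gs j i p]; ring
  have hbig := E.big_eq j i n hn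
  have hn1 : (0 : ℝ) ≤ 1 / (n : ℝ) := by positivity
  obtain ⟨_, h1, h2⟩ := hs
  simp only [e1] at h1 h2
  have e2 : ∏ p ∈ n.primeFactors, (1 + ((p : ℝ) * E.gl j i p + (p : ℝ) * E.gs j i p)) =
      ∏ p ∈ n.primeFactors, (1 + p * E.g j p) := by
    refine prod_congr rfl fun p _ => ?_
    rw [← E.gl_add_gs j i p]; ring
  rw [e2] at h2
  have hT : 0 ≤ TT n.primeFactors (fun p : ℕ => (p : ℝ) * E.g j p) := by
    refine TT_nonneg _ _ fun p => mul_nonneg (Nat.cast_nonneg p) ?_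
    rw [← E.gl_add_gs j i p]
    exact add_nonneg (E.gl_nonneg j i p (hu p) (hh p)) (E.gs_nonneg j i p (hu p) (hh p))
  refine ⟨?_, ?_, mul_nonneg hn1 hT⟩
  · unfold tau
    refine (mul_le_mul_of_nonneg_left h1 hn1).trans (le_of_eq ?_)
    rw [mul_add, ← hbig]
  · unfold mass
    have h3 : ∏ p ∈ n.primeFactors, (1 + p * E.g j p) ≤
        2 * ∑ p ∈ n.primeFactors, (p * E.gl j i p) *
          ∏ q ∈ n.primeFactors.erase p, (1 + 2 * (q * E.gl j i q + q * E.gs j i q)) +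
        ∏ p ∈ n.primeFactors, (1 + 2 * (p * E.gs j i p)) := by linarith
    refine (mul_le_mul_of_nonneg_left h3 hn1).trans (le_of_eq ?_)
    rw [mul_add, ← hbig]
    ring

/-- the key inequality for the cells, packaged -/
structure Key (R j : ℕ) : Prop where
  u0 : ∀ p, 0 ≤ E.gu j p
  h0 : ∀ p, 0 ≤ E.gh j p
  tau_cell : ∀ i k : ℕ, j ≤ i → k < nc E.δ i →
    ∑ n ∈ E.cs R i k, E.tau j n ≤ E.w i + E.w i / 4
  mass_cell : ∀ i k : ℕ, j ≤ i → k < nc E.δ i → ∑ n ∈ E.cs R i k, E.mass j n ≤ 4 * E.w i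
  inv_cell : ∀ i k : ℕ, j ≤ i → k < nc E.δ i → ∑ n ∈ E.cs R i k, 1 / (n : ℝ) ≤ E.w i / 4

lemma w_pos (i : ℕ) (hi : 1 ≤ i) : 0 < E.w i := by
  unfold w
  have : (0 : ℝ) < i := by exact_mod_cast hi
  positivity

theorem key (hGB : E.GBounds) (hU : E.UPart) (hH : E.HPart) (hS : E.SPart) :
    ∃ R₀ : ℕ, ∀ R : ℕ, R₀ ≤ R → ∃ J : ℕ, ∀ j : ℕ, J ≤ j → E.Key R j := by
  obtain ⟨J0, hJ0, hGB⟩ := hGB
  obtain ⟨R1, hU⟩ := hU
  obtain ⟨R2, hH⟩ := hH
  obtain ⟨J3, hS⟩ := hS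
  refine ⟨max R1 R2, fun R hR => ?_⟩
  obtain ⟨J1, hU⟩ := hU R ((le_max_left _ _).trans hR)
  obtain ⟨J2, hH⟩ := hH R ((le_max_right _ _).trans hR)
  refine ⟨max (max J0 J1) (max J2 J3), fun j hj => ?_⟩
  have hj0 : J0 ≤ j := ((le_max_left _ _).trans (le_max_left _ _)).trans hj
  have hj1 : J1 ≤ j := ((le_max_right _ _).trans (le_max_left _ _)).trans hj
  have hj2 : J2 ≤ j := ((le_max_left _ _).trans (le_max_right _ _)).trans hj
  have hj3 : J3 ≤ j := ((le_max_right _ _).trans (le_max_right _ _)).trans hj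
  obtain ⟨_, hu0, hh0, _⟩ := hGB j hj0
  -- the three sums over a cell
  have hbig : ∀ i k : ℕ, j ≤ i → k < nc E.δ i →
      ∑ n ∈ E.cs R i k, E.big j i n ≤ E.w i + E.w i / 8 := by
    intro i k hi hk
    have a1 := hU j hj1 i hi k hk
    have a2 := hH j hj2 i hi k hk
    unfold big
    rw [sum_add_distrib]
    refine (add_le_add a1 a2).trans (le_of_eq ?_)
    split_ifs <;> ring
  have hsm : ∀ i k : ℕ, j ≤ i → k < nc E.δ i →
      ∑ n ∈ E.cs R i k, (1 / (n : ℝ)) * ∏ p ∈ n.primeFactors, (1 + 2 * (p * E.gs j i p)) ≤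
        E.w i / 16 := by
    intro i k hi hk
    refine le_trans (sum_le_sum_of_subset_of_nonneg ?_ ?_) (hS j hj3 i hi k hk)
    · intro n hn
      unfold cs at hn
      rw [mem_filter] at hn ⊢
      exact ⟨hn.1, hn.2.1⟩
    · intro n _ _
      refine mul_nonneg (by positivity) (prod_nonneg fun p _ => ?_)
      have := mul_nonneg (Nat.cast_nonneg (α := ℝ) p) (E.gs_nonneg j i p (hu0 p) (hh0 p))
      linarith
  have hsq : ∀ i k n : ℕ, n ∈ E.cs R i k → Squarefree n := fun i k n hn => by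
    unfold cs at hn
    exact (mem_filter.1 hn).2.1
  refine ⟨hu0, hh0, ?_, ?_, ?_⟩
  · intro i k hi hk
    have hw := E.w_pos i (hJ0.trans (hj0.trans hi))
    calc ∑ n ∈ E.cs R i k, E.tau j n
        ≤ ∑ n ∈ E.cs R i k, (E.big j i n +
            (1 / (n : ℝ)) * ∏ p ∈ n.primeFactors, (1 + 2 * (p * E.gs j i p))) :=
          sum_le_sum fun n hn => (E.point j i n hu0 hh0 (hsq i k n hn)).1
      _ ≤ (E.w i + E.w i / 8) + E.w i / 16 := by
          rw [sum_add_distrib]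
          exact add_le_add (hbig i k hi hk) (hsm i k hi hk)
      _ ≤ _ := by linarith
  · intro i k hi hk
    have hw := E.w_pos i (hJ0.trans (hj0.trans hi))
    calc ∑ n ∈ E.cs R i k, E.mass j n
        ≤ ∑ n ∈ E.cs R i k, (2 * E.big j i n +
            (1 / (n : ℝ)) * ∏ p ∈ n.primeFactors, (1 + 2 * (p * E.gs j i p))) :=
          sum_le_sum fun n hn => (E.point j i n hu0 hh0 (hsq i k n hn)).2.1
      _ ≤ 2 * (E.w i + E.w i / 8) + E.w i / 16 := by
          rw [sum_add_distrib, ← mul_sum]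
          exact add_le_add (mul_le_mul_of_nonneg_left (hbig i k hi hk) (by norm_num))
            (hsm i k hi hk)
      _ ≤ _ := by linarith
  · intro i k hi hk
    have hw := E.w_pos i (hJ0.trans (hj0.trans hi))
    calc ∑ n ∈ E.cs R i k, 1 / (n : ℝ)
        ≤ ∑ n ∈ E.cs R i k, (1 / (n : ℝ)) * ∏ p ∈ n.primeFactors, (1 + 2 * (p * E.gs j i p)) := by
          refine sum_le_sum fun n _ => ?_
          have h1 := one_le_prod1 n.primeFactors (fun p => 2 * (p * E.gs j i p)) fun p => by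
            have := mul_nonneg (Nat.cast_nonneg (α := ℝ) p) (E.gs_nonneg j i p (hu0 p) (hh0 p))
            linarith
          have h2 : (0 : ℝ) ≤ 1 / (n : ℝ) := by positivity
          nlinarith
      _ ≤ E.w i / 16 := hsm i k hi hk
      _ ≤ _ := by linarith

end Env

end Pool.Agent.W76.MO
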