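import Pool.Agent.W76.MO.Asm1

/-!
# The perturbed function and its Lipschitz estimates
-/

set_option autoImplicit false

namespace Pool.Agent.W76.MO

open Finset
open scoped Classical

/-! ### dyadic geometry -/

lemma hh_pos (δ : ℝ) (i : ℕ) : 0 < hh δ i := by unfold hh; positivity

lemma floor_le_i (δ : ℝ) (hδ : 0 < δ) (i : ℕ) : ⌊(1 / 2 - δ) * i⌋₊ ≤ i := by
  apply Nat.floor_le_of_le
  have : (0 : ℝ) ≤ i := Nat.cast_nonneg i
  nlinarith

lemma hh_dvd (δ : ℝ) (hδ : 0 < δ) (i : ℕ) : hh δ i ∣ 2 ^ i := by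
  unfold hh
  exact pow_dvd_pow 2 (floor_le_i δ hδ i)

lemma nc_mul (δ : ℝ) (hδ : 0 < δ) (i : ℕ) : nc δ i * hh δ i = 2 ^ i := by
  unfold nc
  exact Nat.div_mul_cancel (hh_dvd δ hδ i)

lemma cell_loc (δ : ℝ) (hδ : 0 < δ) (i k p : ℕ) (hk : k < nc δ i) (hp : p ∈ cell δ i k) :
    2 ^ i + 1 ≤ p ∧ p ≤ 2 ^ (i + 1) ∧ Env.sc p = i := by
  unfold cell at hp
  rw [mem_Ioc] at hp
  have h1 := nc_mul δ hδ i
  have h2 : (k + 1) * hh δ i ≤ nc δ i * hh δ i := Nat.mul_le_mul_right _ hk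
  have h3 : p ≤ 2 ^ (i + 1) := by rw [pow_succ]; omega
  have h4 : 2 ^ i + 1 ≤ p := by omega
  refine ⟨h4, h3, ?_⟩
  unfold Env.sc
  have h5 : 2 ^ i ≤ p - 1 := by omega
  have h6 : p - 1 < 2 ^ (i + 1) := by omega
  exact Nat.log_eq_of_pow_le_of_lt_pow h5 h6

lemma cell_kx (E : Env) (i k p : ℕ) (hk : k < nc E.δ i) (hp : p ∈ cell E.δ i k) :
    E.kx p = k := by
  have h := (cell_loc E.δ E.hδ i k p hk hp).2.2
  unfold Env.kx
  rw [h]
  unfold cell at hp
  rw [mem_Ioc] at hp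
  have hpos := hh_pos E.δ i
  apply Nat.div_eq_of_lt_le
  · omega
  · omega

namespace Env

variable (E : Env)

lemma bad_lt {i k : ℕ} (hk : k ∈ E.Bad i) : k < nc E.δ i := by
  unfold Bad at hk
  exact mem_range.1 (mem_filter.1 hk).1

/-- the linear perturbation at `p` -/
noncomputable def gz (j : ℕ) (z : ℕ × ℕ → ℝ) (p : ℕ) : ℝ :=
  (if p ≤ 2 ^ j then z (j - 1, 0) else z (sc p, E.kx p)) * E.gu j p +
  ∑ i ∈ (range (2 * Nat.log 2 p + 3)).filter (fun i => j ≤ i), ∑ k ∈ E.Bad i,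
    ∑ n ∈ (E.Host j i k).filter (fun n => lp n = p),
      z (i, k) * (E.w i / ((E.Host j i k).card : ℝ) * ((n : ℝ) / p)) *
        (ArithmeticFunction.moebius (n / p) : ℝ)

lemma gz_sub (j : ℕ) (z z' : ℕ × ℕ → ℝ) (p : ℕ) :
    E.gz j z p - E.gz j z' p = E.gz j (fun i => z i - z' i) p := by
  unfold gz
  have h1 : ∀ (S1 S2 S3 : ℝ) (a b c : ℝ), S3 = S1 - S2 → a - b = c →
      a + S1 - (b + S2) = c + S3 := by intros; subst_vars; ring
  apply h1
  · rw [← sum_sub_distrib]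
    refine sum_congr rfl fun i _ => ?_
    rw [← sum_sub_distrib]
    refine sum_congr rfl fun k _ => ?_
    rw [← sum_sub_distrib]
    refine sum_congr rfl fun n _ => ?_
    ring
  · split_ifs <;> ring

lemma abs_moebius_le (n : ℕ) : |(ArithmeticFunction.moebius n : ℝ)| ≤ 1 := by
  have h : |ArithmeticFunction.moebius n| ≤ 1 := ArithmeticFunction.abs_moebius_le_one
  calc |(ArithmeticFunction.moebius n : ℝ)| = ((|ArithmeticFunction.moebius n| : ℤ) : ℝ) := by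
        push_cast; rfl
    _ ≤ 1 := by exact_mod_cast h

lemma w_nonneg (i : ℕ) : 0 ≤ E.w i := by unfold w; positivity

lemma gz_le (j : ℕ) (z : ℕ × ℕ → ℝ) (ε : ℝ) (hz : ∀ i, |z i| ≤ ε)
    (hu : ∀ p, 0 ≤ E.gu j p) (p : ℕ) : |E.gz j z p| ≤ ε * E.g j p := by
  have hε : 0 ≤ ε := (abs_nonneg _).trans (hz (0, 0))
  unfold gz g
  refine (abs_add_le _ _).trans ?_
  rw [mul_add]
  refine add_le_add ?_ ?_
  · rw [abs_mul, abs_of_nonneg (hu p)]
    refine mul_le_mul_of_nonneg_right ?_ (hu p)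
    split_ifs <;> exact hz _
  · unfold gh
    rw [mul_sum]
    refine (abs_sum_le_sum_abs _ _).trans (sum_le_sum fun i _ => ?_)
    rw [mul_sum]
    refine (abs_sum_le_sum_abs _ _).trans (sum_le_sum fun k _ => ?_)
    rw [mul_sum]
    refine (abs_sum_le_sum_abs _ _).trans (sum_le_sum fun n _ => ?_)
    have h0 : 0 ≤ E.w i / ((E.Host j i k).card : ℝ) * ((n : ℝ) / p) :=
      mul_nonneg (div_nonneg (E.w_nonneg i) (Nat.cast_nonneg _)) (by positivity)
    rw [abs_mul, abs_mul, abs_of_nonneg h0]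
    calc |z (i, k)| * (E.w i / ((E.Host j i k).card : ℝ) * ((n : ℝ) / p)) *
          |(ArithmeticFunction.moebius (n / p) : ℝ)|
        ≤ |z (i, k)| * (E.w i / ((E.Host j i k).card : ℝ) * ((n : ℝ) / p)) * 1 :=
          mul_le_mul_of_nonneg_left (abs_moebius_le _) (mul_nonneg (abs_nonneg _) h0)
      _ ≤ ε * (E.w i / ((E.Host j i k).card : ℝ) * ((n : ℝ) / p)) := by
          rw [mul_one]
          exact mul_le_mul_of_nonneg_right (hz _) h0

/-- a triple sum minus one of its terms -/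
lemma isolate (S : Finset ℕ) (B : ℕ → Finset ℕ) (H : ℕ → ℕ → Finset ℕ)
    (x y : ℕ → ℕ → ℕ → ℝ) (hxy : ∀ i k n, |x i k n| ≤ y i k n)
    (i k n : ℕ) (hi : i ∈ S) (hk : k ∈ B i) (hn : n ∈ H i k) :
    |∑ i ∈ S, ∑ k ∈ B i, ∑ n ∈ H i k, x i k n - x i k n| ≤
      ∑ i ∈ S, ∑ k ∈ B i, ∑ n ∈ H i k, y i k n - y i k n := by
  -- split off successively
  have hy : ∀ i k n, 0 ≤ y i k n := fun i k n => (abs_nonneg _).trans (hxy i k n)
  have e1 : ∀ v : ℕ → ℕ → ℕ → ℝ, ∑ i ∈ S, ∑ k ∈ B i, ∑ n ∈ H i k, v i k n - v i k n =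
      ∑ i ∈ S.erase i, ∑ k ∈ B i, ∑ n ∈ H i k, v i k n +
      (∑ k ∈ (B i).erase k, ∑ n ∈ H i k, v i k n + ∑ n ∈ (H i k).erase n, v i k n) := by
    intro v
    rw [← add_sum_erase S _ hi, ← add_sum_erase (B i) _ hk, ← add_sum_erase (H i k) _ hn]
    ring
  rw [e1 x, e1 y]
  refine (abs_add_le _ _).trans (add_le_add ?_ ((abs_add_le _ _).trans (add_le_add ?_ ?_)))
  · refine (abs_sum_le_sum_abs _ _).trans (sum_le_sum fun i _ => ?_)
    refine (abs_sum_le_sum_abs _ _).trans (sum_le_sum fun k _ => ?_)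
    exact (abs_sum_le_sum_abs _ _).trans (sum_le_sum fun n _ => hxy i k n)
  · refine (abs_sum_le_sum_abs _ _).trans (sum_le_sum fun k _ => ?_)
    exact (abs_sum_le_sum_abs _ _).trans (sum_le_sum fun n _ => hxy i k n)
  · exact (abs_sum_le_sum_abs _ _).trans (sum_le_sum fun n _ => hxy i k n)

lemma two_le_of_rpow (τ : ℝ) (hτ : 0 < τ) (i q : ℕ) (hq : (2 : ℝ) ^ ((1 / 2 + τ) * i) ≤ q) :
    i < 2 * Nat.log 2 q + 3 := by
  have h1 : (2 : ℝ) ^ (((i / 2 : ℕ) : ℝ)) ≤ q := by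
    refine le_trans (Real.rpow_le_rpow_of_exponent_le (by norm_num) ?_) hq
    have h2 : (((i / 2 : ℕ) : ℝ)) ≤ (i : ℝ) / 2 := Nat.cast_div_le
    have h3 : (0 : ℝ) ≤ i := Nat.cast_nonneg i
    nlinarith
  rw [Real.rpow_natCast] at h1
  have h4 : 2 ^ (i / 2) ≤ q := by exact_mod_cast h1
  have h5 : i / 2 ≤ Nat.log 2 q := by
    apply Nat.le_log_of_pow_le (by norm_num) h4
  omega

/-- the perturbation at the host prime of `n ∈ Host(i,k)` -/
lemma gz_host (j : ℕ) (z : ℕ × ℕ → ℝ) (ε : ℝ) (hz : ∀ i, |z i| ≤ ε) (i k n : ℕ) (hi : j ≤ i)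
    (hk : k ∈ E.Bad i) (hn : n ∈ E.Host j i k) :
    |E.gz j z (lp n) - z (i, k) * (E.w i / ((E.Host j i k).card : ℝ) * ((n : ℝ) / lp n)) *
      (ArithmeticFunction.moebius (n / lp n) : ℝ)| ≤
      ε * (E.g j (lp n) - E.w i / ((E.Host j i k).card : ℝ) * ((n : ℝ) / lp n)) := by
  have hn' := hn
  unfold Host at hn'
  rw [mem_filter] at hn'
  obtain ⟨hcell, hq, _, _, _, hnU, _⟩ := hn'
  have hgu : E.gu j (lp n) = 0 := by
    unfold gu
    rw [if_neg hnU]
  have hi' : i ∈ (range (2 * Nat.log 2 (lp n) + 3)).filter (fun i => j ≤ i) := by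
    rw [mem_filter, mem_range]
    exact ⟨two_le_of_rpow E.τ E.hτ i (lp n) hq, hi⟩
  have hmem : n ∈ (E.Host j i k).filter (fun n' => lp n' = lp n) := by
    rw [mem_filter]
    exact ⟨hn, rfl⟩
  have key := isolate ((range (2 * Nat.log 2 (lp n) + 3)).filter (fun i => j ≤ i)) E.Bad
    (fun i k => (E.Host j i k).filter (fun n' => lp n' = lp n))
    (fun i k n' => z (i, k) * (E.w i / ((E.Host j i k).card : ℝ) * ((n' : ℝ) / lp n)) *
        (ArithmeticFunction.moebius (n' / lp n) : ℝ))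
    (fun i k n' => ε * (E.w i / ((E.Host j i k).card : ℝ) * ((n' : ℝ) / lp n))) ?_ i k n hi' hk hmem
  · have e1 : E.gz j z (lp n) = ∑ i ∈ (range (2 * Nat.log 2 (lp n) + 3)).filter (fun i => j ≤ i),
        ∑ k ∈ E.Bad i, ∑ n' ∈ (E.Host j i k).filter (fun n' => lp n' = lp n),
          z (i, k) * (E.w i / ((E.Host j i k).card : ℝ) * ((n' : ℝ) / lp n)) *
            (ArithmeticFunction.moebius (n' / lp n) : ℝ) := by
      unfold gz
      rw [hgu, mul_zero, zero_add]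
    have e2 : ε * E.g j (lp n) = ∑ i ∈ (range (2 * Nat.log 2 (lp n) + 3)).filter (fun i => j ≤ i),
        ∑ k ∈ E.Bad i, ∑ n' ∈ (E.Host j i k).filter (fun n' => lp n' = lp n),
          ε * (E.w i / ((E.Host j i k).card : ℝ) * ((n' : ℝ) / lp n)) := by
      unfold g gh
      rw [hgu, zero_add, mul_sum]
      refine sum_congr rfl fun i _ => ?_
      rw [mul_sum]
      refine sum_congr rfl fun k _ => ?_
      rw [mul_sum]
    rw [e1, mul_sub, e2]
    exact key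
  · intro i k n'
    have h0 : 0 ≤ E.w i / ((E.Host j i k).card : ℝ) * ((n' : ℝ) / lp n) :=
      mul_nonneg (div_nonneg (E.w_nonneg i) (Nat.cast_nonneg _)) (by positivity)
    rw [abs_mul, abs_mul, abs_of_nonneg h0]
    calc |z (i, k)| * (E.w i / ((E.Host j i k).card : ℝ) * ((n' : ℝ) / lp n)) *
          |(ArithmeticFunction.moebius (n' / lp n) : ℝ)|
        ≤ |z (i, k)| * (E.w i / ((E.Host j i k).card : ℝ) * ((n' : ℝ) / lp n)) * 1 :=
          mul_le_mul_of_nonneg_left (abs_moebius_le _) (mul_nonneg (abs_nonneg _) h0)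
      _ ≤ ε * (E.w i / ((E.Host j i k).card : ℝ) * ((n' : ℝ) / lp n)) := by
          rw [mul_one]
          exact mul_le_mul_of_nonneg_right (hz _) h0

/-- the perturbation at a control prime of a good cell -/
lemma gz_good (j : ℕ) (z : ℕ × ℕ → ℝ) (hgh : ∀ q, E.gh j q ≠ 0 → ¬ E.U j q)
    (hh0 : ∀ q, 0 ≤ E.gh j q)
    (i k p : ℕ) (hi : j ≤ i) (hk : k < nc E.δ i) (hkb : k ∉ E.Bad i) (hp : p ∈ cell E.δ i k)
    (hU : E.isU p) :
    E.gz j z p = z (i, k) * (E.w i / (((cell E.δ i k).filter E.isU).card : ℝ)) ∧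
    E.g j p = E.w i / (((cell E.δ i k).filter E.isU).card : ℝ) := by
  have hloc := cell_loc E.δ E.hδ i k p hk hp
  have hkx := cell_kx E i k p hk hp
  have h2 : 2 ^ j ≤ 2 ^ i := Nat.pow_le_pow_right (by norm_num) hi
  have hjj : 2 ^ (j - 1) ≤ 2 ^ j := Nat.pow_le_pow_right (by norm_num) (Nat.sub_le j 1)
  have hUj : E.U j p := ⟨hU, by omega⟩
  have hng : ¬ p ≤ 2 ^ j := by omega
  have hgh0 : E.gh j p = 0 := by
    by_contra h
    exact hgh p h hUj
  have hgu : E.gu j p = E.w i / (((cell E.δ i k).filter E.isU).card : ℝ) := by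
    unfold gu
    rw [if_pos hUj, if_neg hng, hloc.2.2, hkx, if_neg hkb]
  refine ⟨?_, by unfold g; rw [hgh0, hgu, add_zero]⟩
  have hz2 : ∀ i' ∈ (range (2 * Nat.log 2 p + 3)).filter (fun i => j ≤ i), ∀ k' ∈ E.Bad i',
      ∀ n ∈ (E.Host j i' k').filter (fun n => lp n = p), False := by
    intro i' _ k' _ n hn
    rw [mem_filter] at hn
    unfold Host at hn
    rw [mem_filter] at hn
    have := hn.1.2.2.2.2.2.1
    rw [hn.2] at this
    exact this hUj
  unfold gz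
  rw [if_neg hng, hloc.2.2, hkx, hgu]
  have : ∑ i ∈ (range (2 * Nat.log 2 p + 3)).filter (fun i => j ≤ i), ∑ k ∈ E.Bad i,
    ∑ n ∈ (E.Host j i k).filter (fun n => lp n = p),
      z (i, k) * (E.w i / ((E.Host j i k).card : ℝ) * ((n : ℝ) / p)) *
        (ArithmeticFunction.moebius (n / p) : ℝ) = 0 :=
    sum_eq_zero fun i' hi' => sum_eq_zero fun k' hk' => sum_eq_zero fun n hn =>
      (hz2 i' hi' k' hk' n hn).elim
  rw [this, add_zero]

/-- the perturbation at a control prime of the first block -/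
lemma gz_first (j : ℕ) (z : ℕ × ℕ → ℝ) (hgh : ∀ q, E.gh j q ≠ 0 → ¬ E.U j q)
    (p : ℕ) (hp : p ∈ E.UB j) :
    E.gz j z p = z (j - 1, 0) * (8 * j / ((E.UB j).card : ℝ)) ∧
    E.g j p = 8 * j / ((E.UB j).card : ℝ) := by
  have hp' := hp
  unfold UB at hp'
  rw [mem_filter, mem_Ioc] at hp'
  obtain ⟨⟨h1, h2⟩, hU⟩ := hp'
  have hUj : E.U j p := ⟨hU, h1⟩
  have hgh0 : E.gh j p = 0 := by
    by_contra h
    exact hgh p h hUj
  have hgu : E.gu j p = 8 * j / ((E.UB j).card : ℝ) := by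
    unfold gu
    rw [if_pos hUj, if_pos h2]
  refine ⟨?_, by unfold g; rw [hgh0, hgu, add_zero]⟩
  unfold gz
  rw [if_pos h2, hgu]
  have : ∑ i ∈ (range (2 * Nat.log 2 p + 3)).filter (fun i => j ≤ i), ∑ k ∈ E.Bad i,
    ∑ n ∈ (E.Host j i k).filter (fun n => lp n = p),
      z (i, k) * (E.w i / ((E.Host j i k).card : ℝ) * ((n : ℝ) / p)) *
        (ArithmeticFunction.moebius (n / p) : ℝ) = 0 := by
    refine sum_eq_zero fun i' hi' => sum_eq_zero fun k' hk' => sum_eq_zero fun n hn => ?_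
    exfalso
    rw [mem_filter] at hn
    unfold Host at hn
    rw [mem_filter] at hn
    have := hn.1.2.2.2.2.2.1
    rw [hn.2] at this
    exact this hUj
  rw [this, add_zero]

end Env

end Pool.Agent.W76.MO
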