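import Pool.Agent.W76.MO.Asm2
import Pool.Agent.W76.MO.Fix

/-!
# The system of equations
-/

set_option autoImplicit false

namespace Pool.Agent.W76.MO

open Finset
open scoped Classical

lemma lip_sum (A N : Finset ℕ) (hN : N ⊆ A) (hne : N.Nonempty) (F F' τ : ℕ → ℝ) (ε W Δ : ℝ)
    (h1 : ∀ n ∈ A, n ∉ N → |F n - F' n| ≤ ε * τ n)
    (h2 : ∀ n ∈ N, |F n - F' n - Δ * (W / (N.card : ℝ))| ≤ ε * (τ n - W / (N.card : ℝ))) :
    |∑ n ∈ A, F n - ∑ n ∈ A, F' n - W * Δ| ≤ ε * (∑ n ∈ A, τ n - W) := by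
  have hc : (N.card : ℝ) ≠ 0 := by
    have : 0 < N.card := Finset.card_pos.2 hne
    exact_mod_cast this.ne'
  have e0 : W = ∑ n ∈ N, W / (N.card : ℝ) := by
    rw [sum_const, nsmul_eq_mul]
    field_simp
  have e1 : ∑ n ∈ A, F n - ∑ n ∈ A, F' n - W * Δ = ∑ n ∈ A \ N, (F n - F' n) +
      ∑ n ∈ N, (F n - F' n - Δ * (W / (N.card : ℝ))) := by
    rw [← sum_sub_distrib, ← sum_sdiff hN, sum_sub_distrib (s := N) (f := fun n => F n - F' n),
      ← mul_sum, ← e0]
    ring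
  have e2 : ε * (∑ n ∈ A, τ n - W) = ∑ n ∈ A \ N, ε * τ n +
      ∑ n ∈ N, ε * (τ n - W / (N.card : ℝ)) := by
    rw [← mul_sum, ← mul_sum, sum_sub_distrib, ← e0, ← sum_sdiff hN]
    ring
  rw [e1, e2]
  refine (abs_add_le _ _).trans (add_le_add ?_ ?_)
  · refine (abs_sum_le_sum_abs _ _).trans (sum_le_sum fun n hn => ?_)
    rw [mem_sdiff] at hn
    exact h1 n hn.1 hn.2
  · exact (abs_sum_le_sum_abs _ _).trans (sum_le_sum fun n hn => h2 n hn)

lemma prod_neg_inv (m : ℕ) (hm : Squarefree m) :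
    ∏ p ∈ m.primeFactors, (0 - 1 / (p : ℝ)) = (ArithmeticFunction.moebius m : ℝ) / m := by
  have h1 : (m : ℝ) = ∏ p ∈ m.primeFactors, (p : ℝ) := by
    conv_lhs => rw [← Nat.prod_primeFactors_of_squarefree hm]
    push_cast
    rfl
  have h2 : (ArithmeticFunction.moebius m : ℝ) = ∏ p ∈ m.primeFactors, (-1 : ℝ) := by
    rw [ArithmeticFunction.moebius_apply_of_squarefree hm, prod_const,
      ← (ArithmeticFunction.cardDistinctFactors_eq_cardFactors_iff_squarefree hm.ne_zero).2 hm,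
      ArithmeticFunction.cardDistinctFactors_apply]
    push_cast
    rfl
  rw [h2]
  conv_rhs => rw [h1]
  rw [← prod_div_distrib]
  refine prod_congr rfl fun p _ => ?_
  ring

namespace Env

variable (E : Env)

/-- the function -/
noncomputable def fz (j : ℕ) (z : ℕ × ℕ → ℝ) (n : ℕ) : ℝ :=
  ∏ p ∈ n.primeFactors, (E.gz j z p - 1 / (p : ℝ))

lemma g_nonneg (j p : ℕ) (hu : ∀ p, 0 ≤ E.gu j p) (hh : ∀ p, 0 ≤ E.gh j p) : 0 ≤ E.g j p :=
  add_nonneg (hu p) (hh p)

lemma fz_bound (j n : ℕ) (z z' : ℕ × ℕ → ℝ) (ε : ℝ) (hu : ∀ p, 0 ≤ E.gu j p)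
    (hz : ∀ i, |z i| ≤ 1) (hz' : ∀ i, |z' i| ≤ 1)
    (hzz : ∀ i, |z i - z' i| ≤ ε) (hn : Squarefree n) :
    |E.fz j z n| ≤ E.mass j n ∧ |E.fz j z n - E.fz j z' n| ≤ ε * E.tau j n := by
  have hε : 0 ≤ ε := (abs_nonneg _).trans (hzz (0, 0))
  have h := perturb n.primeFactors (fun p => 1 / (p : ℝ)) (E.gz j z) (E.gz j z') (E.g j) ε
    (fun p => by positivity) hε
    (fun p => (E.gz_le j z 1 hz hu p).trans (le_of_eq (one_mul _)))
    (fun p => (E.gz_le j z' 1 hz' hu p).trans (le_of_eq (one_mul _)))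
    (fun p => by rw [gz_sub]; exact E.gz_le j _ ε hzz hu p)
  refine ⟨?_, ?_⟩
  · refine h.1.trans (le_of_eq ?_)
    rw [prod_scale n hn]
    rfl
  · refine h.2.trans (le_of_eq ?_)
    rw [sum_scale n hn]
    rfl

lemma fz_zero (j n : ℕ) (hu : ∀ p, 0 ≤ E.gu j p) (hn : Squarefree n) :
    |E.fz j 0 n| = 1 / (n : ℝ) := by
  have h0 : ∀ p, E.gz j 0 p = 0 := fun p => by
    have := E.gz_le j 0 0 (fun i => by simp) hu p
    rw [zero_mul] at this
    exact abs_eq_zero.1 (le_antisymm this (abs_nonneg _))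
  unfold fz
  rw [Finset.abs_prod]
  have h1 : (n : ℝ) = ∏ p ∈ n.primeFactors, (p : ℝ) := by
    conv_lhs => rw [← Nat.prod_primeFactors_of_squarefree hn]
    push_cast
    rfl
  have h2 : (1 : ℝ) / ∏ p ∈ n.primeFactors, (p : ℝ) = ∏ p ∈ n.primeFactors, (1 / (p : ℝ)) := by
    rw [prod_div_distrib, prod_const_one]
  rw [h1, h2]
  refine prod_congr rfl fun p _ => ?_
  rw [h0, zero_sub, abs_neg, abs_of_nonneg (by positivity)]

/-- structure of `tau` and of differences at `n` all of whose primes except `q` are free of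
perturbations -/
lemma intended (j n q : ℕ) (z z' : ℕ × ℕ → ℝ) (hu : ∀ p, 0 ≤ E.gu j p)
    (hz : ∀ i, |z i| ≤ 1) (hz' : ∀ i, |z' i| ≤ 1)
    (hn : Squarefree n) (hq : q ∈ n.primeFactors)
    (hfree : ∀ p ∈ n.primeFactors.erase q, E.g j p = 0) :
    E.tau j n = E.g j q * (1 / ((n / q : ℕ) : ℝ)) ∧
    E.fz j z n - E.fz j z' n = (E.gz j z q - E.gz j z' q) *
      ((ArithmeticFunction.moebius (n / q) : ℝ) / ((n / q : ℕ) : ℝ)) := by
  have hqn := Nat.dvd_of_mem_primeFactors hq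
  have hsq : Squarefree (n / q) := hn.squarefree_of_dvd (Nat.div_dvd_of_dvd hqn)
  have hpf := primeFactors_div n q hn hq
  have hgz0 : ∀ w : ℕ × ℕ → ℝ, (∀ i, |w i| ≤ 1) → ∀ p ∈ n.primeFactors.erase q, E.gz j w p = 0 := by
    intro w hw p hp
    have := E.gz_le j w 1 hw hu p
    rw [hfree p hp, mul_zero] at this
    exact abs_eq_zero.1 (le_antisymm this (abs_nonneg _))
  refine ⟨?_, ?_⟩
  · have h1 := sum_scale n hn (E.g j)
    unfold tau
    rw [← h1, ← add_sum_erase _ _ hq]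
    have h2 : ∑ p ∈ n.primeFactors.erase q, E.g j p *
        ∏ q ∈ n.primeFactors.erase p, (1 / (q : ℝ) + E.g j q) = 0 :=
      sum_eq_zero fun p hp => by rw [hfree p hp, zero_mul]
    rw [h2, add_zero]
    congr 1
    rw [← hpf, prod_scale (n / q) hsq]
    have h3 : ∏ p ∈ (n / q).primeFactors, (1 + p * E.g j p) = 1 := by
      refine prod_eq_one fun p hp => ?_
      rw [hpf] at hp
      rw [hfree p hp, mul_zero, add_zero]
    rw [h3, mul_one]
  · have h4 : ∀ w : ℕ × ℕ → ℝ, (∀ i, |w i| ≤ 1) → E.fz j w n = (E.gz j w q - 1 / (q : ℝ)) *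
        ((ArithmeticFunction.moebius (n / q) : ℝ) / ((n / q : ℕ) : ℝ)) := by
      intro w hw
      unfold fz
      rw [← mul_prod_erase _ _ hq, ← prod_neg_inv (n / q) hsq, hpf]
      congr 1
      refine prod_congr rfl fun p hp => ?_
      rw [hgz0 w hw p hp]
    rw [h4 z hz, h4 z' hz']
    ring

/-- Lipschitz estimate at the hosts -/
lemma host_lip (j : ℕ) (z z' : ℕ × ℕ → ℝ) (ε : ℝ) (hu : ∀ p, 0 ≤ E.gu j p)
    (hU : ∀ p, E.gu j p ≠ 0 → E.U j p) (hH : ∀ q, E.gh j q ≠ 0 → E.H j q)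
    (hz : ∀ i, |z i| ≤ 1) (hz' : ∀ i, |z' i| ≤ 1)
    (hzz : ∀ i, |z i - z' i| ≤ ε) (i k n : ℕ) (hi : j ≤ i)
    (hk : k ∈ E.Bad i) (hn : n ∈ E.Host j i k) :
    |E.fz j z n - E.fz j z' n - (z (i, k) - z' (i, k)) * (E.w i / ((E.Host j i k).card : ℝ))| ≤
      ε * (E.tau j n - E.w i / ((E.Host j i k).card : ℝ)) := by
  have hn' := hn
  unfold Host at hn'
  rw [mem_filter] at hn'
  obtain ⟨hcell, hq, hlt, hsq, _, hnU, hfr⟩ := hn'
  have hq1 : 1 < lp n := by
    have h1 : (1 : ℝ) ≤ (2 : ℝ) ^ ((1 / 2 + E.τ) * i) := by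
      apply Real.one_le_rpow (by norm_num)
      have := E.hτ
      positivity
    rcases Nat.lt_or_ge 1 (lp n) with h | h
    · exact h
    · exfalso
      -- `lp n` would be `≤ 1`; but it is a prime factor of `n > 1`
      have hn1 : 1 < n ∨ n ≤ 1 := lt_or_ge 1 n
      rcases hn1 with hn1 | hn1
      · obtain ⟨p, hp, hpn⟩ := Nat.exists_prime_and_dvd hn1.ne'
        have hmem : p ∈ n.primeFactors := Nat.mem_primeFactors.2 ⟨hp, hpn, by omega⟩
        have : p ≤ lp n := Finset.le_sup (f := id) hmem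
        have := hp.two_le
        omega
      · have hlp : lp n = 0 := by
          unfold lp
          have : n.primeFactors = ∅ := by
            interval_cases n <;> simp
          rw [this]; rfl
        rw [hlp] at hq
        simp at hq
        linarith [show (0 : ℝ) < (2 : ℝ) ^ ((1 / 2 + E.τ) * i) by positivity]
  have hn0 : n ≠ 0 := hsq.ne_zero
  have hne : n.primeFactors.Nonempty := by
    rw [Finset.nonempty_iff_ne_empty]
    intro h
    unfold lp at hq1
    rw [h] at hq1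
    simp at hq1
  have hmem : lp n ∈ n.primeFactors := by
    obtain ⟨q, hq, hqe⟩ := Finset.exists_mem_eq_sup n.primeFactors hne id
    unfold lp
    rw [hqe]
    exact hq
  have hfree : ∀ p ∈ n.primeFactors.erase (lp n), E.g j p = 0 := by
    intro p hp
    rw [← primeFactors_div n (lp n) hsq hmem] at hp
    have hpp := Nat.prime_of_mem_primeFactors hp
    have hpd := Nat.dvd_of_mem_primeFactors hp
    obtain ⟨h1, h2⟩ := hfr p hpp hpd
    have e1 : E.gu j p = 0 := by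
      by_contra h
      exact h1 (hU p h)
    have e2 : E.gh j p = 0 := by
      by_contra h
      exact h2 (hH p h)
    unfold g
    rw [e1, e2, add_zero]
  obtain ⟨ht, hd⟩ := E.intended j n (lp n) z z' hu hz hz' hsq hmem hfree
  rw [ht, hd]
  have hgz := E.gz_host j (fun i => z i - z' i) ε hzz i k n hi hk hn
  rw [← gz_sub] at hgz
  set q := lp n with hqd
  have hm : ((n / q : ℕ) : ℝ) = (n : ℝ) / q := cast_div_prime n q hmem
  have hq0 : (q : ℝ) ≠ 0 := by
    have : q ≠ 0 := by omega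
    exact_mod_cast this
  have hn0' : (n : ℝ) ≠ 0 := by exact_mod_cast hn0
  have hmpos : 0 < ((n / q : ℕ) : ℝ) := by
    rw [hm]
    have h1 : (0 : ℝ) < n := lt_of_le_of_ne (Nat.cast_nonneg n) (Ne.symm hn0')
    have h2 : (0 : ℝ) < q := lt_of_le_of_ne (Nat.cast_nonneg q) (Ne.symm hq0)
    positivity
  have hsq' : Squarefree (n / q) := hsq.squarefree_of_dvd (Nat.div_dvd_of_dvd (Nat.dvd_of_mem_primeFactors hmem))
  have hmu : (ArithmeticFunction.moebius (n / q) : ℝ) * (ArithmeticFunction.moebius (n / q) : ℝ) = 1 := by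
    have h1 : ArithmeticFunction.moebius (n / q) ^ 2 = 1 := ArithmeticFunction.moebius_sq_eq_one_of_squarefree hsq'
    have h2 : ((ArithmeticFunction.moebius (n / q) ^ 2 : ℤ) : ℝ) = 1 := by rw [h1]; norm_num
    push_cast at h2
    linarith [h2, sq (ArithmeticFunction.moebius (n / q) : ℝ)]
  set μ := (ArithmeticFunction.moebius (n / q) : ℝ) with hμ
  set M := ((n / q : ℕ) : ℝ) with hM
  set W := E.w i / ((E.Host j i k).card : ℝ) with hW
  have e1 : (E.gz j z q - E.gz j z' q) * (μ / M) - (z (i, k) - z' (i, k)) * W =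
      (E.gz j z q - E.gz j z' q - (z (i, k) - z' (i, k)) * (W * ((n : ℝ) / q)) * μ) * (μ / M) := by
    rw [← hm]
    have : (z (i, k) - z' (i, k)) * W = (z (i, k) - z' (i, k)) * (W * M) * μ * (μ / M) := by
      have h3 : (z (i, k) - z' (i, k)) * (W * M) * μ * (μ / M) =
          (z (i, k) - z' (i, k)) * W * (μ * μ) := by
        field_simp
      rw [h3, hmu, mul_one]
    rw [this]
    ring
  rw [e1, abs_mul]
  have hμ1 : |μ / M| ≤ 1 / M := by
    rw [abs_div, abs_of_pos hmpos]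
    gcongr
    exact abs_moebius_le _
  calc |E.gz j z q - E.gz j z' q - (z (i, k) - z' (i, k)) * (W * ((n : ℝ) / q)) * μ| * |μ / M|
      ≤ (ε * (E.g j q - W * ((n : ℝ) / q))) * (1 / M) :=
        mul_le_mul hgz hμ1 (abs_nonneg _) ((abs_nonneg _).trans hgz)
    _ = ε * (E.g j q * (1 / M) - W) := by
        rw [← hm]
        field_simp

/-- Lipschitz estimate at primes -/
lemma prime_lip (j p : ℕ) (hp : p.Prime) (z z' : ℕ × ℕ → ℝ) (x : ℕ × ℕ) (W ε : ℝ)
    (hz : ∀ y : ℕ × ℕ → ℝ, E.gz j y p = y x * W) (hg : E.g j p = W) :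
    |E.fz j z p - E.fz j z' p - (z x - z' x) * W| ≤ ε * (E.tau j p - W) := by
  have h1 : E.tau j p = W := by
    unfold tau TT
    have : (p : ℝ) ≠ 0 := by exact_mod_cast hp.ne_zero
    simp only [hp.primeFactors, sum_singleton, erase_singleton, prod_empty, hg, mul_one]
    field_simp
  have h2 : E.fz j z p - E.fz j z' p = (z x - z' x) * W := by
    unfold fz
    rw [hp.primeFactors, prod_singleton, prod_singleton, hz, hz]
    ring
  rw [h1, h2, sub_self, sub_self, abs_zero, mul_zero]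

end Env

end Pool.Agent.W76.MO
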