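import Pool.Agent.W76.MO.Asm4

/-!
# Solution of the system
-/

set_option autoImplicit false

namespace Pool.Agent.W76.MO

open Finset
open scoped Classical

lemma ge_of_rpow_ge (τ : ℝ) (hτ : 0 < τ) (R : ℕ) : ∃ J : ℕ, ∀ i : ℕ, J ≤ i →
    (R : ℝ) ≤ (2 : ℝ) ^ (τ * i) := by
  have h1 : (1 : ℝ) < (2 : ℝ) ^ τ := Real.one_lt_rpow (by norm_num) hτ
  have h2 := tendsto_pow_atTop_atTop_of_one_lt h1
  obtain ⟨J, hJ⟩ := Filter.eventually_atTop.1 (h2.eventually_ge_atTop (R : ℝ))
  refine ⟨J, fun i hi => ?_⟩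
  rw [Real.rpow_mul (by norm_num), Real.rpow_natCast]
  exact hJ i hi

namespace Env

variable (E : Env)

theorem system (hGB : E.GBounds) (hHC : E.HCount)
    (hKey : ∃ R₀ : ℕ, ∀ R : ℕ, R₀ ≤ R → ∃ J : ℕ, ∀ j : ℕ, J ≤ j → E.Key R j) :
    ∃ (R j : ℕ) (z : ℕ × ℕ → ℝ), (∀ x, |z x| ≤ 1) ∧ 2 ≤ R ∧ 10 ≤ j ∧ E.Key R j ∧
      (∀ p : ℕ, p.Prime → E.g j p ≤ 1 / 4) ∧
      ∑ n ∈ A0 R j, E.fz j z n = 0 ∧
      ∀ i k : ℕ, j ≤ i → k < nc E.δ i → ∑ n ∈ E.cs R i k, E.fz j z n = 0 := by
  obtain ⟨R₀, hKey⟩ := hKey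
  set R := max R₀ 2 with hR
  obtain ⟨J1, hKey⟩ := hKey R (le_max_left _ _)
  obtain ⟨J2, hJ2, hfirst⟩ := E.tau_first hGB R
  obtain ⟨J3, hHC⟩ := hHC
  obtain ⟨J4, hJ4⟩ := ge_of_rpow_ge E.τ E.hτ R
  obtain ⟨J5, hJ5, hGB⟩ := hGB
  set j := J1 + J2 + J3 + J4 + J5 + R + 10 with hj
  have hKj := hKey j (by omega)
  obtain ⟨hUBne, hUBp, htau1⟩ := hfirst j (by omega)
  obtain ⟨hUB, hu0, hh0, hgu, hgh, hguU, hghq, hsum1, hsum2⟩ := hGB j (by omega)
  have hj1 : 1 ≤ j := by omega
  have hjr : (1 : ℝ) ≤ j := by exact_mod_cast hj1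
  have hRj : R ≤ 2 ^ (j - 1) := by
    have h1 : R ≤ j - 1 := by omega
    exact h1.trans (Nat.lt_two_pow_self).le
  -- the system
  let F : (ℕ × ℕ → ℝ) → ℕ × ℕ → ℝ := fun z x =>
    if x = (j - 1, 0) then ∑ n ∈ A0 R j, E.fz j z n
    else if j ≤ x.1 ∧ x.2 < nc E.δ x.1 then ∑ n ∈ E.cs R x.1 x.2, E.fz j z n
    else z x
  let W : ℕ × ℕ → ℝ := fun x =>
    if x = (j - 1, 0) then 8 * j else if j ≤ x.1 ∧ x.2 < nc E.δ x.1 then E.w x.1 else 1
  have hW : ∀ x, 0 < W x := by
    intro x
    simp only [W]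
    split_ifs with h1 h2
    · positivity
    · exact E.w_pos _ (hj1.trans h2.1)
    · norm_num
  have hA0sq : ∀ n ∈ A0 R j, Squarefree n := fun n hn => by
    unfold A0 at hn
    exact (mem_filter.1 hn).2.1
  have hcssq : ∀ i k n, n ∈ E.cs R i k → Squarefree n := fun i k n hn => by
    unfold cs at hn
    exact (mem_filter.1 hn).2.1
  obtain ⟨z, hz1, hz0⟩ := solve F W hW (by
    intro x
    simp only [F, W]
    split_ifs with h1 h2
    · calc |∑ n ∈ A0 R j, E.fz j 0 n| ≤ ∑ n ∈ A0 R j, |E.fz j 0 n| := abs_sum_le_sum_abs _ _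
        _ = ∑ n ∈ A0 R j, 1 / (n : ℝ) := sum_congr rfl fun n hn => E.fz_zero j n hu0 (hA0sq n hn)
        _ ≤ ∑ n ∈ Icc (1 : ℕ) (2 ^ j), 1 / (n : ℝ) := by
            apply sum_le_sum_of_subset_of_nonneg (filter_subset _ _)
            intro n _ _
            positivity
        _ ≤ 1 + j := harm_le j
        _ ≤ 8 * j / 4 := by linarith
    · calc |∑ n ∈ E.cs R x.1 x.2, E.fz j 0 n| ≤ ∑ n ∈ E.cs R x.1 x.2, |E.fz j 0 n| :=
            abs_sum_le_sum_abs _ _
        _ = ∑ n ∈ E.cs R x.1 x.2, 1 / (n : ℝ) :=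
            sum_congr rfl fun n hn => E.fz_zero j n hu0 (hcssq _ _ n hn)
        _ ≤ E.w x.1 / 4 := hKj.inv_cell x.1 x.2 h2.1 h2.2
    · simp) (by
    intro z z' ε hz hz' hzz x
    have hε : 0 ≤ ε := (abs_nonneg _).trans (hzz (0, 0))
    simp only [F, W]
    split_ifs with h1 h2
    · -- the first block
      subst h1
      have hsub : E.UB j ⊆ A0 R j := by
        intro p hp
        have hpp := hUBp p hp
        unfold UB at hp
        rw [mem_filter, mem_Ioc] at hp
        unfold A0
        rw [mem_filter, mem_Icc]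
        refine ⟨⟨hpp.one_le, hp.1.2⟩, hpp.squarefree, ?_⟩
        intro q hq hqp
        have : q = p := (Nat.prime_dvd_prime_iff_eq hq hpp).1 hqp
        subst this
        have : R ≤ q := by omega
        exact_mod_cast this
      have h := lip_sum (A0 R j) (E.UB j) hsub hUBne (E.fz j z) (E.fz j z') (E.tau j) ε (8 * j)
        (z (j - 1, 0) - z' (j - 1, 0))
        (fun n hn _ => (E.fz_bound j n z z' ε hu0 hz hz' hzz (hA0sq n hn)).2)
        (fun p hp => E.prime_lip j p (hUBp p hp) z z' (j - 1, 0) _ ε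
          (fun y => (E.gz_first j y (fun q hq => (hgh q hq).2.1) p hp).1)
          (E.gz_first j z (fun q hq => (hgh q hq).2.1) p hp).2)
      refine h.trans (mul_le_mul_of_nonneg_left ?_ hε)
      linarith
    · -- a cell
      obtain ⟨i, k⟩ := x
      simp only at h2 ⊢
      obtain ⟨hji, hk⟩ := h2
      have htau := hKj.tau_cell i k hji hk
      have hi1 : 1 ≤ i := hj1.trans hji
      have hir : (0 : ℝ) < i := by exact_mod_cast hi1
      have hhpos : (0 : ℝ) < hh E.δ i := by exact_mod_cast hh_pos E.δ i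
      have hRi : R ≤ 2 ^ i := by
        refine hRj.trans (Nat.pow_le_pow_right (by norm_num) (by omega))
      by_cases hkb : k ∈ E.Bad i
      · -- bad cell
        have hne : (E.Host j i k).Nonempty := by
          rw [← Finset.card_pos]
          have h3 := hHC j (by omega) i hji k hkb
          have h4 : 0 < E.cH / 2 * hh E.δ i / i := by
            have := E.hcH
            positivity
          exact_mod_cast h4.trans_le h3
        have hsub : E.Host j i k ⊆ E.cs R i k := by
          intro n hn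
          unfold Host at hn
          rw [mem_filter] at hn
          unfold cs
          rw [mem_filter]
          refine ⟨hn.1, hn.2.2.2.1, ?_⟩
          intro p hp hpn
          exact (hJ4 i (by omega)).trans (hn.2.2.2.2.1 p hp hpn)
        have h := lip_sum (E.cs R i k) (E.Host j i k) hsub hne (E.fz j z) (E.fz j z') (E.tau j) ε
          (E.w i) (z (i, k) - z' (i, k))
          (fun n hn _ => (E.fz_bound j n z z' ε hu0 hz hz' hzz (hcssq _ _ n hn)).2)
          (fun n hn => E.host_lip j z z' ε hu0 hgu (fun q hq => (hgh q hq).1) hz hz' hzz i k n hji hkb hn)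
        refine h.trans (mul_le_mul_of_nonneg_left ?_ hε)
        linarith
      · -- good cell
        have hcard : 0 < (((cell E.δ i k).filter E.isU).card : ℝ) := by
          have h3 : ¬ ((((cell E.δ i k).filter E.isU).card : ℝ) < E.cU * hh E.δ i / (i : ℝ) ^ 4) := by
            intro h3
            apply hkb
            unfold Bad
            rw [mem_filter, mem_range]
            exact ⟨hk, h3⟩
          rw [not_lt] at h3
          have := E.hcU
          exact lt_of_lt_of_le (by positivity) h3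
        have hne : ((cell E.δ i k).filter E.isU).Nonempty := by
          rw [← Finset.card_pos]
          exact_mod_cast hcard
        have hpr : ∀ p ∈ (cell E.δ i k).filter E.isU, p.Prime := fun p hp =>
          E.u_prime p (mem_filter.1 hp).2
        have hsub : (cell E.δ i k).filter E.isU ⊆ E.cs R i k := by
          intro p hp
          have hpp := hpr p hp
          rw [mem_filter] at hp
          unfold cs
          rw [mem_filter]
          refine ⟨hp.1, hpp.squarefree, ?_⟩
          intro q hq hqp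
          have : q = p := (Nat.prime_dvd_prime_iff_eq hq hpp).1 hqp
          subst this
          have h4 := (cell_loc E.δ E.hδ i k q hk hp.1).1
          have : R ≤ q := by omega
          exact_mod_cast this
        have h := lip_sum (E.cs R i k) ((cell E.δ i k).filter E.isU) hsub hne (E.fz j z) (E.fz j z')
          (E.tau j) ε (E.w i) (z (i, k) - z' (i, k))
          (fun n hn _ => (E.fz_bound j n z z' ε hu0 hz hz' hzz (hcssq _ _ n hn)).2)
          (fun p hp => by
            have hp' := mem_filter.1 hp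
            exact E.prime_lip j p (hpr p hp) z z' (i, k) _ ε
              (fun y => (E.gz_good j y (fun q hq => (hgh q hq).2.1) hh0 i k p hji hk hkb hp'.1 hp'.2).1)
              (E.gz_good j z (fun q hq => (hgh q hq).2.1) hh0 i k p hji hk hkb hp'.1 hp'.2).2)
        refine h.trans (mul_le_mul_of_nonneg_left ?_ hε)
        linarith
    · simp only [one_mul, sub_self, abs_zero]
      positivity)
  refine ⟨R, j, z, hz1, le_max_right _ _, by omega, hKj, ?_, ?_, ?_⟩
  · -- size of the perturbation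
    intro p hp
    have hp1 : (1 : ℝ) ≤ p := by exact_mod_cast hp.one_le
    have hp0 : (0 : ℝ) < p := by linarith
    have hδ1 : E.δ ≤ 1 / 100000 := by
      have := E.hδ'
      have := E.hτ'
      linarith
    have hδ0 := E.hδ
    -- if `p ≥ 16` and `2 p x ≤ p^(1/2)` then `x ≤ 1/8`
    have hsmall : ∀ x : ℝ, 16 ≤ (p : ℝ) → 2 * (p * x) ≤ (p : ℝ) ^ (1 / 2 : ℝ) → x ≤ 1 / 8 := by
      intro x h16 hx
      have h1 : (p : ℝ) ^ (1 / 2 : ℝ) * (p : ℝ) ^ (1 / 2 : ℝ) = p := by
        rw [← Real.rpow_add hp0]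
        norm_num
      have h2 : (4 : ℝ) ≤ (p : ℝ) ^ (1 / 2 : ℝ) := by
        have h3 : (16 : ℝ) ^ (1 / 2 : ℝ) ≤ (p : ℝ) ^ (1 / 2 : ℝ) :=
          Real.rpow_le_rpow (by norm_num) h16 (by norm_num)
        have h4 : (16 : ℝ) ^ (1 / 2 : ℝ) = 4 := by
          rw [show (16 : ℝ) = 4 ^ (2 : ℝ) by norm_num, ← Real.rpow_mul (by norm_num)]
          norm_num
        linarith
      by_contra hcon
      push Not at hcon
      set y := (p : ℝ) ^ (1 / 2 : ℝ) with hy
      have h5 : 2 * (y * y * x) ≤ y := by rw [h1]; exact hx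
      have h6 : 0 < y := by linarith
      have h7 : 2 * (y * x) ≤ 1 := by
        by_contra h8
        push Not at h8
        nlinarith
      nlinarith
    have hu8 : E.gu j p ≤ 1 / 8 := by
      by_cases h : E.gu j p = 0
      · rw [h]; norm_num
      have hU := hgu p h
      have hlt := hU.2
      obtain ⟨hsc, hb⟩ := hguU p hU
      have h16 : 16 ≤ p := by
        have h1 : 2 ^ 4 ≤ 2 ^ (j - 1) := Nat.pow_le_pow_right (by norm_num) (by omega)
        omega
      apply hsmall _ (by exact_mod_cast h16)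
      have hsc1 : 1 ≤ sc p := by omega
      have hscr : (1 : ℝ) ≤ sc p := by exact_mod_cast hsc1
      have h2 : (2 : ℝ) ^ (E.δ / 2 * sc p) / (sc p : ℝ) ^ 35 ≤ (2 : ℝ) ^ (E.δ / 2 * sc p) := by
        apply div_le_self (by positivity)
        exact one_le_pow₀ hscr
      have h3 : (2 : ℝ) ^ (E.δ / 2 * sc p) ≤ (2 : ℝ) ^ (1 / 2 * (sc p : ℝ)) := by
        apply Real.rpow_le_rpow_of_exponent_le (by norm_num)
        have : (0 : ℝ) ≤ sc p := by linarith
        nlinarith
      have h4 : (2 : ℝ) ^ (1 / 2 * (sc p : ℝ)) ≤ (p : ℝ) ^ (1 / 2 : ℝ) := by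
        rw [mul_comm, Real.rpow_mul (by norm_num), Real.rpow_natCast]
        apply Real.rpow_le_rpow (by positivity) _ (by norm_num)
        have h5 : 2 ^ sc p ≤ p - 1 := Nat.pow_log_le_self 2 (by omega)
        have h6 : 2 ^ sc p ≤ p := h5.trans (Nat.sub_le _ _)
        exact_mod_cast h6
      linarith
    have hh8 : E.gh j p ≤ 1 / 8 := by
      by_cases h : E.gh j p = 0
      · rw [h]; norm_num
      obtain ⟨h1, h2⟩ := hghq p h
      have h16 : (16 : ℝ) ≤ p := by
        refine le_trans ?_ h1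
        have h3 : (2 : ℝ) ^ (4 : ℝ) ≤ (2 : ℝ) ^ ((j : ℝ) / 2) := by
          apply Real.rpow_le_rpow_of_exponent_le (by norm_num)
          have : 8 ≤ j := by omega
          have : (8 : ℝ) ≤ j := by exact_mod_cast this
          linarith
        calc (16 : ℝ) = (2 : ℝ) ^ (4 : ℝ) := by norm_num
          _ ≤ _ := h3
      apply hsmall _ h16
      have h3 : (p : ℝ) ^ (9 * E.δ) ≤ (p : ℝ) ^ (1 / 2 : ℝ) := by
        apply Real.rpow_le_rpow_of_exponent_le hp1
        linarith
      linarith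
    unfold g
    linarith
  · have h := hz0 (j - 1, 0)
    simp only [F] at h
    simpa using h
  · intro i k hi hk
    have h := hz0 (i, k)
    simp only [F] at h
    have hne : ¬ ((i, k) : ℕ × ℕ) = (j - 1, 0) := by
      intro h1
      have : i = j - 1 := (Prod.ext_iff.1 h1).1
      omega
    rw [if_neg hne, if_pos ⟨hi, hk⟩] at h
    exact h

end Env

end Pool.Agent.W76.MO
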