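import Pool.Agent.W76.MO.Asm5

/-!
# From the solved system to the MO function
-/

set_option autoImplicit false

namespace Pool.Agent.W76.MO

open Finset Filter Topology
open scoped Classical

namespace Env

variable (E : Env)

/-- the function, real valued -/
noncomputable def ff (R j : ℕ) (z : ℕ × ℕ → ℝ) (n : ℕ) : ℝ :=
  if Squarefree n ∧ Rough R n then E.fz j z n else 0

lemma rough_mul (R : ℝ) (m n : ℕ) : Rough R (m * n) ↔ Rough R m ∧ Rough R n := by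
  unfold Rough
  constructor
  · intro h
    exact ⟨fun p hp hd => h p hp (hd.mul_right n), fun p hp hd => h p hp (hd.mul_left m)⟩
  · rintro ⟨h1, h2⟩ p hp hd
    rcases (Nat.Prime.dvd_mul hp).1 hd with h | h
    · exact h1 p hp h
    · exact h2 p hp h

lemma ff_mul (R j : ℕ) (z : ℕ × ℕ → ℝ) (m n : ℕ) (hmn : Nat.Coprime m n) :
    E.ff R j z (m * n) = E.ff R j z m * E.ff R j z n := by
  unfold ff
  have h1 : (Squarefree (m * n) ∧ Rough R (m * n)) ↔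
      (Squarefree m ∧ Rough R m) ∧ (Squarefree n ∧ Rough R n) := by
    rw [Nat.squarefree_mul hmn, rough_mul]
    tauto
  by_cases hm : Squarefree m ∧ Rough R m
  · by_cases hn : Squarefree n ∧ Rough R n
    · rw [if_pos (h1.2 ⟨hm, hn⟩), if_pos hm, if_pos hn]
      unfold fz
      rw [hmn.primeFactors_mul, prod_union hmn.disjoint_primeFactors]
    · rw [if_neg (fun h => hn (h1.1 h).2), if_neg hn, mul_zero]
  · rw [if_neg (fun h => hm (h1.1 h).1), if_neg hm, zero_mul]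

/-- partial sums -/
noncomputable def SS (R j : ℕ) (z : ℕ × ℕ → ℝ) (N : ℕ) : ℝ := ∑ n ∈ Icc 1 N, E.ff R j z n

lemma SS_add (R j : ℕ) (z : ℕ × ℕ → ℝ) (M N : ℕ) (h : M ≤ N) :
    E.SS R j z N = E.SS R j z M + ∑ n ∈ Ioc M N, E.ff R j z n := by
  unfold SS
  have h1 : Icc 1 N = Icc 1 M ∪ Ioc M N := by
    ext n
    simp only [mem_Icc, mem_union, mem_Ioc]
    omega
  rw [h1, sum_union]
  rw [disjoint_left]
  intro n hn hn'
  rw [mem_Icc] at hn
  rw [mem_Ioc] at hn'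
  omega

lemma sum_cell (R j i k : ℕ) (z : ℕ × ℕ → ℝ) :
    ∑ n ∈ cell E.δ i k, E.ff R j z n = ∑ n ∈ E.cs R i k, E.fz j z n := by
  unfold cs ff
  rw [sum_filter]

variable {E}

structure Sol (E : Env) (R j : ℕ) (z : ℕ × ℕ → ℝ) : Prop where
  z1 : ∀ x, |z x| ≤ 1
  R2 : 2 ≤ R
  j10 : 10 ≤ j
  key : E.Key R j
  small : ∀ p : ℕ, p.Prime → E.g j p ≤ 1 / 4
  first : ∑ n ∈ A0 R j, E.fz j z n = 0
  cells : ∀ i k : ℕ, j ≤ i → k < nc E.δ i → ∑ n ∈ E.cs R i k, E.fz j z n = 0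

lemma Sol.SS_first {R j : ℕ} {z : ℕ × ℕ → ℝ} (h : Sol E R j z) : E.SS R j z (2 ^ j) = 0 := by
  unfold SS ff
  rw [← sum_filter]
  exact h.first

lemma Sol.SS_cell {R j : ℕ} {z : ℕ × ℕ → ℝ} (h : Sol E R j z) (i : ℕ) (hi : j ≤ i)
    (h0 : E.SS R j z (2 ^ i) = 0) (k : ℕ) (hk : k ≤ nc E.δ i) :
    E.SS R j z (2 ^ i + k * hh E.δ i) = 0 := by
  induction k with
  | zero => simpa using h0
  | succ k ih =>
    have h1 := ih (by omega)
    rw [E.SS_add R j z (2 ^ i + k * hh E.δ i) _ (by gcongr; omega), h1, zero_add]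
    have h2 := E.sum_cell R j i k z
    unfold cell at h2
    rw [h2]
    exact h.cells i k hi (by omega)

lemma Sol.SS_block {R j : ℕ} {z : ℕ × ℕ → ℝ} (h : Sol E R j z) (i : ℕ) (hi : j ≤ i) :
    E.SS R j z (2 ^ i) = 0 := by
  induction i, hi using Nat.le_induction with
  | base => exact h.SS_first
  | succ i hi ih =>
    have h1 := h.SS_cell i hi ih (nc E.δ i) le_rfl
    rw [nc_mul E.δ E.hδ i] at h1
    rw [pow_succ, mul_two]
    exact h1

lemma Sol.ff_abs {R j : ℕ} {z : ℕ × ℕ → ℝ} (h : Sol E R j z) (i k : ℕ) (hi : j ≤ i)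
    (hk : k < nc E.δ i) : ∑ n ∈ cell E.δ i k, |E.ff R j z n| ≤ 4 * E.w i := by
  have h1 : ∑ n ∈ cell E.δ i k, |E.ff R j z n| = ∑ n ∈ E.cs R i k, |E.fz j z n| := by
    unfold cs ff
    rw [sum_filter]
    refine sum_congr rfl fun n _ => ?_
    split_ifs <;> simp
  rw [h1]
  refine le_trans (sum_le_sum fun n hn => ?_) (h.key.mass_cell i k hi hk)
  unfold cs at hn
  rw [mem_filter] at hn
  exact (E.fz_bound j n z z 0 h.key.u0 h.z1 h.z1 (fun x => by simp) hn.2.1).1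

lemma Sol.SS_le {R j : ℕ} {z : ℕ × ℕ → ℝ} (h : Sol E R j z) (N : ℕ) (hN : 2 ^ j < N) :
    |E.SS R j z N| ≤ 4 * E.w (sc N) ∧ j ≤ sc N ∧ N ≤ 2 ^ (sc N + 1) ∧ 2 ^ sc N < N := by
  have h2j : 0 < 2 ^ j := by positivity
  set i := sc N with hi
  have h1 : 2 ^ i ≤ N - 1 := by
    rw [hi]
    exact Nat.pow_log_le_self 2 (by omega)
  have h2 : N - 1 < 2 ^ (i + 1) := by
    rw [hi]
    exact Nat.lt_pow_succ_log_self (by norm_num) (N - 1)
  have hji : j ≤ i := by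
    by_contra hcon
    push Not at hcon
    have h3 : 2 ^ (i + 1) ≤ 2 ^ j := Nat.pow_le_pow_right (by norm_num) hcon
    have h4 := lt_of_lt_of_le h2 h3
    omega
  set k := (N - 1 - 2 ^ i) / hh E.δ i with hk
  have hpos := hh_pos E.δ i
  have h3 : k * hh E.δ i ≤ N - 1 - 2 ^ i := Nat.div_mul_le_self _ _
  have h4 : N - 1 - 2 ^ i < (k + 1) * hh E.δ i := by
    have h5 : N - 1 - 2 ^ i < hh E.δ i * (k + 1) := by
      have := Nat.lt_mul_div_succ (N - 1 - 2 ^ i) hpos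
      exact this
    rw [mul_comm]
    exact h5
  have hkn : k < nc E.δ i := by
    have h5 := nc_mul E.δ E.hδ i
    have h6 : k * hh E.δ i < nc E.δ i * hh E.δ i := by
      rw [h5]
      rw [pow_succ] at h2
      omega
    exact lt_of_mul_lt_mul_right h6 (Nat.zero_le _)
  have h0 := h.SS_cell i hji (h.SS_block i hji) k hkn.le
  refine ⟨?_, hji, by omega, by omega⟩
  rw [E.SS_add R j z (2 ^ i + k * hh E.δ i) N (by omega), h0, zero_add]
  refine (abs_sum_le_sum_abs _ _).trans (le_trans ?_ (h.ff_abs i k hji hkn))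
  apply sum_le_sum_of_subset_of_nonneg
  · intro n hn
    rw [mem_Ioc] at hn
    unfold cell
    rw [mem_Ioc]
    omega
  · intro n _ _
    exact abs_nonneg _

lemma w_le (E : Env) (i N : ℕ) (hi : 1 ≤ i) (hN : N ≤ 2 ^ (i + 1)) (hN1 : 1 ≤ N) :
    E.w i ≤ 2 * (N : ℝ) ^ (-(1 / 2 : ℝ) - E.δ / 2) := by
  have hδ := E.hδ
  have hδ1 : E.δ ≤ 1 / 100000 := by
    have := E.hδ'
    have := E.hτ'
    linarith
  have h1 : E.w i ≤ (2 : ℝ) ^ (-(1 / 2 + E.δ / 2) * i) := by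
    unfold w
    apply div_le_self (by positivity)
    exact one_le_pow₀ (by exact_mod_cast hi)
  have h2 : (2 : ℝ) ^ (-(1 / 2 + E.δ / 2) * i) =
      (2 : ℝ) ^ (1 / 2 + E.δ / 2) * ((2 : ℝ) ^ ((i : ℝ) + 1)) ^ (-(1 / 2 : ℝ) - E.δ / 2) := by
    rw [← Real.rpow_mul (by norm_num), ← Real.rpow_add (by norm_num)]
    congr 1
    ring
  have h3 : ((2 : ℝ) ^ ((i : ℝ) + 1)) ^ (-(1 / 2 : ℝ) - E.δ / 2) ≤
      (N : ℝ) ^ (-(1 / 2 : ℝ) - E.δ / 2) := by
    apply Real.rpow_le_rpow_of_nonpos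
    · exact_mod_cast hN1
    · have h4 : (2 : ℝ) ^ ((i : ℝ) + 1) = ((2 ^ (i + 1) : ℕ) : ℝ) := by
        push_cast
        rw [← Real.rpow_natCast]
        push_cast
        rfl
      rw [h4]
      exact_mod_cast hN
    · linarith
  have h5 : (2 : ℝ) ^ (1 / 2 + E.δ / 2) ≤ 2 := by
    calc (2 : ℝ) ^ (1 / 2 + E.δ / 2) ≤ (2 : ℝ) ^ (1 : ℝ) := by
          apply Real.rpow_le_rpow_of_exponent_le (by norm_num)
          linarith
      _ = 2 := Real.rpow_one 2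
  rw [h2] at h1
  refine h1.trans ?_
  exact mul_le_mul h5 h3 (by positivity) (by norm_num)

theorem Sol.bound {R j : ℕ} {z : ℕ × ℕ → ℝ} (h : Sol E R j z) : ∃ C : ℝ, 0 < C ∧
    ∀ N : ℕ, 1 ≤ N → |E.SS R j z N| ≤ C * (N : ℝ) ^ (-(1 / 2 : ℝ) - E.δ / 2) := by
  set M : ℝ := ∑ n ∈ Icc 1 (2 ^ j), |E.ff R j z n| with hM
  have hM0 : 0 ≤ M := sum_nonneg fun _ _ => abs_nonneg _
  have hδ := E.hδ
  refine ⟨8 + M * ((2 ^ j : ℕ) : ℝ) ^ (1 / 2 + E.δ / 2), by positivity, fun N hN => ?_⟩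
  have hN0 : (0 : ℝ) < N := by exact_mod_cast hN
  rcases Nat.lt_or_ge (2 ^ j) N with h1 | h1
  · obtain ⟨h2, h3, h4, _⟩ := h.SS_le N h1
    have h5 := w_le E (sc N) N (by have := h.j10; omega) h4 hN
    have h6 : 0 < (N : ℝ) ^ (-(1 / 2 : ℝ) - E.δ / 2) := by positivity
    have h7 : 0 ≤ M * ((2 ^ j : ℕ) : ℝ) ^ (1 / 2 + E.δ / 2) := by positivity
    nlinarith
  · have h2 : |E.SS R j z N| ≤ M := by
      unfold SS
      refine (abs_sum_le_sum_abs _ _).trans ?_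
      apply sum_le_sum_of_subset_of_nonneg
      · exact Icc_subset_Icc_right h1
      · intro n _ _
        exact abs_nonneg _
    have h3 : 1 ≤ ((2 ^ j : ℕ) : ℝ) ^ (1 / 2 + E.δ / 2) * (N : ℝ) ^ (-(1 / 2 : ℝ) - E.δ / 2) := by
      have h4 : (N : ℝ) ^ (1 / 2 + E.δ / 2) ≤ ((2 ^ j : ℕ) : ℝ) ^ (1 / 2 + E.δ / 2) := by
        apply Real.rpow_le_rpow hN0.le (by exact_mod_cast h1)
        positivity
      have h5 : (N : ℝ) ^ (1 / 2 + E.δ / 2) * (N : ℝ) ^ (-(1 / 2 : ℝ) - E.δ / 2) = 1 := by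
        rw [← Real.rpow_add hN0]
        have : (1 / 2 + E.δ / 2) + (-(1 / 2 : ℝ) - E.δ / 2) = 0 := by ring
        rw [this, Real.rpow_zero]
      have h6 : 0 ≤ (N : ℝ) ^ (-(1 / 2 : ℝ) - E.δ / 2) := by positivity
      have h7 := mul_le_mul_of_nonneg_right h4 h6
      rw [h5] at h7
      exact h7
    have h6 : 0 < (N : ℝ) ^ (-(1 / 2 : ℝ) - E.δ / 2) := by positivity
    calc |E.SS R j z N| ≤ M * 1 := by rw [mul_one]; exact h2
      _ ≤ M * (((2 ^ j : ℕ) : ℝ) ^ (1 / 2 + E.δ / 2) * (N : ℝ) ^ (-(1 / 2 : ℝ) - E.δ / 2)) :=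
          mul_le_mul_of_nonneg_left h3 hM0
      _ ≤ (8 + M * ((2 ^ j : ℕ) : ℝ) ^ (1 / 2 + E.δ / 2)) * (N : ℝ) ^ (-(1 / 2 : ℝ) - E.δ / 2) := by
          nlinarith

theorem Sol.concl {R j : ℕ} {z : ℕ × ℕ → ℝ} (h : Sol E R j z) : Concl := by
  obtain ⟨C, hC, hb⟩ := h.bound
  have hδ := E.hδ
  have hsum : ∀ N : ℕ, ∑ n ∈ Icc 1 N, ((E.ff R j z n : ℝ) : ℂ) = ((E.SS R j z N : ℝ) : ℂ) := by
    intro N
    unfold SS
    push_cast
    rfl
  have hpow : ∀ p : ℕ, p.Prime → ∀ k : ℕ, 2 ≤ k → E.ff R j z (p ^ k) = 0 := by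
    intro p hp k hk
    unfold ff
    rw [if_neg]
    rintro ⟨h1, _⟩
    have h2 : p * p ∣ p ^ k := by
      rw [← pow_two]
      exact pow_dvd_pow p hk
    have := h1 p h2
    exact hp.one_lt.ne' (Nat.isUnit_iff.1 this)
  have h11 : E.ff R j z 1 = 1 := by
    unfold ff fz
    rw [if_pos]
    · simp
    · refine ⟨squarefree_one, fun p hp hd => ?_⟩
      exact absurd (Nat.dvd_one.1 hd) hp.one_lt.ne'
  have hlt : ∀ p : ℕ, p.Prime → |E.ff R j z p| < 1 := by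
    intro p hp
    unfold ff
    split_ifs
    · unfold fz
      rw [hp.primeFactors, prod_singleton]
      have h1 := E.gz_le j z 1 h.z1 h.key.u0 p
      have h2 := h.small p hp
      have h3 : (1 : ℝ) / p ≤ 1 / 2 := by
        apply one_div_le_one_div_of_le (by norm_num)
        exact_mod_cast hp.two_le
      have h4 : (0 : ℝ) ≤ 1 / p := by positivity
      calc |E.gz j z p - 1 / (p : ℝ)| ≤ |E.gz j z p| + |1 / (p : ℝ)| := abs_sub _ _
        _ < 1 := by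
            rw [abs_of_nonneg h4]
            linarith
    · simp
  refine ⟨fun n => ((E.ff R j z n : ℝ) : ℂ), ⟨?_, ?_, ?_, ?_⟩, E.δ / 2, C * 2, by positivity,
    by positivity, ?_⟩
  · show ((E.ff R j z 1 : ℝ) : ℂ) = 1
    rw [h11, Complex.ofReal_one]
  · intro m n _ _ hmn
    show ((E.ff R j z (m * n) : ℝ) : ℂ) = ((E.ff R j z m : ℝ) : ℂ) * ((E.ff R j z n : ℝ) : ℂ)
    rw [E.ff_mul R j z m n hmn, Complex.ofReal_mul]
  · have h1 : Tendsto (fun N : ℕ => E.SS R j z N) atTop (𝓝 0) := by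
      have h2 : Tendsto (fun N : ℕ => C * (N : ℝ) ^ (-(1 / 2 : ℝ) - E.δ / 2)) atTop (𝓝 0) := by
        have h3 : Tendsto (fun x : ℝ => x ^ (-(1 / 2 + E.δ / 2))) atTop (𝓝 0) :=
          tendsto_rpow_neg_atTop (by positivity)
        have h4 := (h3.comp tendsto_natCast_atTop_atTop).const_mul C
        rw [mul_zero] at h4
        refine h4.congr fun N => ?_
        simp only [Function.comp]
        congr 2
        ring
      rw [tendsto_zero_iff_abs_tendsto_zero]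
      refine squeeze_zero' (Eventually.of_forall fun N => abs_nonneg _) ?_ h2
      filter_upwards [eventually_ge_atTop 1] with N hN
      exact hb N hN
    have h5 : Tendsto (fun N : ℕ => ((E.SS R j z N : ℝ) : ℂ)) atTop (𝓝 ((0 : ℝ) : ℂ)) :=
      (Complex.continuous_ofReal.tendsto 0).comp h1
    rw [Complex.ofReal_zero] at h5
    exact h5.congr fun N => (hsum N).symm
  · intro p hp
    refine ⟨((1 + E.ff R j z p : ℝ) : ℂ), ?_, ?_⟩
    · have h1 := hlt p hp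
      rw [abs_lt] at h1
      have : (1 + E.ff R j z p : ℝ) ≠ 0 := by linarith [h1.1]
      exact_mod_cast this
    · apply tendsto_const_nhds.congr'
      filter_upwards [eventually_ge_atTop 2] with K hK
      have h2 : ∑ k ∈ range K, ((E.ff R j z (p ^ k) : ℝ) : ℂ) =
          ∑ k ∈ range 2, ((E.ff R j z (p ^ k) : ℝ) : ℂ) := by
        symm
        apply sum_subset (range_mono hK)
        intro k _ hk
        rw [mem_range, not_lt] at hk
        rw [hpow p hp k hk, Complex.ofReal_zero]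
      rw [h2, sum_range_succ, sum_range_one, pow_zero, pow_one, h11]
      push_cast
      rfl
  · intro x hx
    have hfl : 1 ≤ ⌊x⌋₊ := by rwa [Nat.one_le_floor_iff]
    have h1 : partialSum (fun n => ((E.ff R j z n : ℝ) : ℂ)) x = ((E.SS R j z ⌊x⌋₊ : ℝ) : ℂ) := hsum _
    rw [h1, Complex.norm_real, Real.norm_eq_abs]
    have h2 := hb ⌊x⌋₊ hfl
    have hN0 : (0 : ℝ) < ⌊x⌋₊ := by exact_mod_cast hfl
    have h3 : x / 2 ≤ ⌊x⌋₊ := by
      have := Nat.lt_floor_add_one x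
      have h4 : (1 : ℝ) ≤ ⌊x⌋₊ := by exact_mod_cast hfl
      linarith
    have hδ1 : E.δ ≤ 1 / 100000 := by
      have := E.hδ'
      have := E.hτ'
      linarith
    have h5 : (⌊x⌋₊ : ℝ) ^ (-(1 / 2 : ℝ) - E.δ / 2) ≤ (x / 2) ^ (-(1 / 2 : ℝ) - E.δ / 2) :=
      Real.rpow_le_rpow_of_nonpos (by linarith) h3 (by linarith)
    have h6 : (x / 2) ^ (-(1 / 2 : ℝ) - E.δ / 2) ≤ 2 * x ^ (-(1 / 2 : ℝ) - E.δ / 2) := by
      rw [Real.div_rpow (by linarith) (by norm_num), div_eq_mul_inv, ← Real.rpow_neg (by norm_num),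
        mul_comm]
      apply mul_le_mul_of_nonneg_right _ (by positivity)
      calc (2 : ℝ) ^ (-(-(1 / 2 : ℝ) - E.δ / 2)) ≤ (2 : ℝ) ^ (1 : ℝ) := by
            apply Real.rpow_le_rpow_of_exponent_le (by norm_num)
            linarith
        _ = 2 := Real.rpow_one 2
    calc |E.SS R j z ⌊x⌋₊| ≤ C * (⌊x⌋₊ : ℝ) ^ (-(1 / 2 : ℝ) - E.δ / 2) := h2
      _ ≤ C * (2 * x ^ (-(1 / 2 : ℝ) - E.δ / 2)) :=
          mul_le_mul_of_nonneg_left (h5.trans h6) hC.le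
      _ = C * 2 * x ^ (-(1 / 2 : ℝ) - E.δ / 2) := by ring

end Env

end Pool.Agent.W76.MO
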