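import Mathlib

/-!
# MP_a187e6_nt: an MO function with partial sums `O(x^(-1/2-c))`.  Definitions.

Scales `i`, blocks `(2^i, 2^(i+1)]`, cells of length `hh δ i = 2 ^ ⌊(1/2-δ) i⌋`.
-/

set_option autoImplicit false

namespace Pool.Agent.W76.MO

open Finset Filter Topology
open scoped Classical

/-! ### the final notions -/

/-- `f` (only its values at `n ≥ 1` matter) is an MO function -/
structure IsMO (f : ℕ → ℂ) : Prop where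
  one : f 1 = 1
  mul : ∀ m n : ℕ, 1 ≤ m → 1 ≤ n → Nat.Coprime m n → f (m * n) = f m * f n
  sum_zero : Tendsto (fun N : ℕ => ∑ n ∈ Icc 1 N, f n) atTop (𝓝 0)
  local_ne_zero : ∀ p : ℕ, p.Prime →
    ∃ L : ℂ, L ≠ 0 ∧ Tendsto (fun K : ℕ => ∑ k ∈ range K, f (p ^ k)) atTop (𝓝 L)

/-- the partial sum `S_f(x) = ∑_{n ≤ x} f(n)` -/
noncomputable def partialSum (f : ℕ → ℂ) (x : ℝ) : ℂ := ∑ n ∈ Icc 1 ⌊x⌋₊, f n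

/-- the conclusion: some MO function has `|S_f(x)| ≤ C x^(-1/2-c)` -/
def Concl : Prop := ∃ f : ℕ → ℂ, IsMO f ∧ ∃ c C : ℝ, 0 < c ∧ 0 < C ∧
  ∀ x : ℝ, 1 ≤ x → ‖partialSum f x‖ ≤ C * x ^ (-(1 / 2 : ℝ) - c)

/-! ### cells, rough numbers -/

/-- all prime factors of `n` are `≥ z` -/
def Rough (z : ℝ) (n : ℕ) : Prop := ∀ p : ℕ, p.Prime → p ∣ n → z ≤ p

/-- length `2 ^ ⌊(1/2-δ) i⌋` of the cells of scale `i` -/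
noncomputable def hh (δ : ℝ) (i : ℕ) : ℕ := 2 ^ ⌊(1 / 2 - δ) * i⌋₊

/-- number of cells of scale `i` (the cells `k < nc δ i` partition `(2^i, 2^(i+1)]`) -/
noncomputable def nc (δ : ℝ) (i : ℕ) : ℕ := 2 ^ i / hh δ i

/-- the `k`-th cell of scale `i` -/
noncomputable def cell (δ : ℝ) (i k : ℕ) : Finset ℕ :=
  Ioc (2 ^ i + k * hh δ i) (2 ^ i + (k + 1) * hh δ i)

/-- the largest prime factor -/
noncomputable def lp (n : ℕ) : ℕ := n.primeFactors.sup id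

/-- `n = m q` with `q ≥ 2^((1/2+τ) i)` prime, `m > 1` squarefree and `2^(γ i)`-rough -/
def HostNum (τ γ : ℝ) (i n : ℕ) : Prop := ∃ m q : ℕ, n = m * q ∧ q.Prime ∧
  (2 : ℝ) ^ ((1 / 2 + τ) * i) ≤ q ∧ 1 < m ∧ Squarefree m ∧ Rough ((2 : ℝ) ^ (γ * i)) m

/-! ### the four inputs -/

/-- (BTR) upper bound for rough numbers in intervals -/
def BTR : Prop := ∀ γ σ : ℝ, 0 < γ → 0 < σ → ∃ C : ℝ, 0 < C ∧ ∃ i₀ : ℕ, 1 ≤ i₀ ∧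
  ∀ i : ℕ, i₀ ≤ i → ∀ a L : ℕ, (2 : ℝ) ^ (σ * i) ≤ L →
    (((Ioc a (a + L)).filter (fun n => Rough ((2 : ℝ) ^ (γ * i)) n)).card : ℝ) ≤ C * L / i

/-- (FEW) under RH there are few cells with few primes -/
def FewBad : Prop := RiemannHypothesis → ∃ c : ℝ, 0 < c ∧ ∀ δ ε : ℝ, 0 < δ → δ < 1 / 4 → 0 < ε →
  ∃ i₀ : ℕ, 1 ≤ i₀ ∧ ∀ i : ℕ, i₀ ≤ i →
    (((range (nc δ i)).filter (fun k =>
      (((cell δ i k).filter Nat.Prime).card : ℝ) < c * hh δ i / i)).card : ℝ) ≤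
        (2 : ℝ) ^ ((2 * δ + ε) * i)

/-- (HOSTS) every interval of length `2^⌊(1/2-δ)i⌋` contains many hosts -/
def Hosts : Prop := ∃ τ γ c δ₀ : ℝ, 0 < τ ∧ 0 < γ ∧ 0 < c ∧ 0 < δ₀ ∧ ∀ δ : ℝ, 0 < δ → δ ≤ δ₀ →
  ∃ i₀ : ℕ, 1 ≤ i₀ ∧ ∀ i : ℕ, i₀ ≤ i → ∀ a : ℕ, 2 ^ i ≤ a → a ≤ 2 ^ (i + 1) →
    c * hh δ i / i ≤ (((Ioc a (a + hh δ i)).filter (HostNum τ γ i)).card : ℝ)

/-- (USET) existence of the set `isU` -/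
def USet : Prop := ∀ τ δ : ℝ, 0 < τ → τ ≤ 1 / 100 → 0 < δ → δ ≤ τ / 1000 →
  ∃ (isU : ℕ → Prop) (CU cU : ℝ) (i₁ : ℕ), 1 ≤ CU ∧ 0 < cU ∧ 1 ≤ i₁ ∧ (∀ p, isU p → p.Prime) ∧
  (∀ i : ℕ, i₁ ≤ i → ∀ a L : ℕ, 2 ^ i ≤ a → a + L ≤ 2 ^ (i + 1) →
    (2 : ℝ) ^ (τ / 4 * i) ≤ L → (((Ioc a (a + L)).filter isU).card : ℝ) ≤ CU * L / (i : ℝ) ^ 4) ∧
  (∀ i : ℕ, i₁ ≤ i → (((range (nc δ i)).filter (fun k =>
    (((cell δ i k).filter isU).card : ℝ) < cU * hh δ i / (i : ℝ) ^ 4)).card : ℝ) ≤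
      (2 : ℝ) ^ (3 * δ * i))

/-- (NRH) the case where RH fails -/
def NotRH : Prop := ¬ RiemannHypothesis → Concl

/-! ### the environment -/

/-- constants and the set `isU` of control primes of the good cells -/
structure Env where
  τ : ℝ
  δ : ℝ
  CU : ℝ
  cU : ℝ
  cH : ℝ
  CB : ℝ
  isU : ℕ → Prop
  i₁ : ℕ
  hτ : 0 < τ
  hτ' : τ ≤ 1 / 100
  hδ : 0 < δ
  hδ' : δ ≤ τ / 1000
  hCU : 1 ≤ CU
  hcU : 0 < cU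
  hcH : 0 < cH
  hCB : 1 ≤ CB
  hi₁ : 1 ≤ i₁
  u_prime : ∀ p, isU p → p.Prime
  u_up : ∀ i : ℕ, i₁ ≤ i → ∀ a L : ℕ, 2 ^ i ≤ a → a + L ≤ 2 ^ (i + 1) →
    (2 : ℝ) ^ (τ / 4 * i) ≤ L → (((Ioc a (a + L)).filter isU).card : ℝ) ≤ CU * L / (i : ℝ) ^ 4
  u_bad : ∀ i : ℕ, i₁ ≤ i → (((range (nc δ i)).filter (fun k =>
    (((cell δ i k).filter isU).card : ℝ) < cU * hh δ i / (i : ℝ) ^ 4)).card : ℝ) ≤
      (2 : ℝ) ^ (3 * δ * i)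
  host : ∀ i : ℕ, i₁ ≤ i → ∀ k : ℕ, k < nc δ i →
    cH * hh δ i / i ≤ (((cell δ i k).filter (HostNum τ τ i)).card : ℝ)
  btr : ∀ i : ℕ, i₁ ≤ i → ∀ a L : ℕ, (2 : ℝ) ^ (τ / 4 * i) ≤ L →
    (((Ioc a (a + L)).filter (fun n => Rough ((2 : ℝ) ^ (τ * i)) n)).card : ℝ) ≤ CB * L / i

namespace Env

variable (E : Env)

/-- the bad cells of scale `i` -/
noncomputable def Bad (i : ℕ) : Finset ℕ := (range (nc E.δ i)).filter (fun k =>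
    (((cell E.δ i k).filter E.isU).card : ℝ) < E.cU * hh E.δ i / (i : ℝ) ^ 4)

/-- control primes of the first kind, `> 2^(j-1)` -/
def U (j p : ℕ) : Prop := E.isU p ∧ 2 ^ (j - 1) < p

/-- the possible host primes -/
def H (j q : ℕ) : Prop := q.Prime ∧ ∃ i : ℕ, j ≤ i ∧ ∃ k ∈ E.Bad i, ∃ n ∈ cell E.δ i k,
  q ∣ n ∧ (2 : ℝ) ^ ((1 / 2 + E.τ) * i) ≤ q

/-- the hosts of the cell `(i, k)` -/
noncomputable def Host (j i k : ℕ) : Finset ℕ := (cell E.δ i k).filter (fun n =>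
  (2 : ℝ) ^ ((1 / 2 + E.τ) * i) ≤ lp n ∧ lp n < n ∧ Squarefree n ∧
    Rough ((2 : ℝ) ^ (E.τ * i)) n ∧ ¬ E.U j (lp n) ∧
    ∀ p : ℕ, p.Prime → p ∣ n / lp n → ¬ E.U j p ∧ ¬ E.H j p)

/-- the weights of the cells of scale `i` -/
noncomputable def w (i : ℕ) : ℝ := (2 : ℝ) ^ (-(1 / 2 + E.δ / 2) * i) / (i : ℝ) ^ 40

/-- the control primes in the block `(2^(j-1), 2^j]` -/
noncomputable def UB (j : ℕ) : Finset ℕ := (Ioc (2 ^ (j - 1)) (2 ^ j)).filter E.isU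

/-- scale of `n`: `n ∈ (2^(sc n), 2^(sc n + 1)]` -/
def sc (n : ℕ) : ℕ := Nat.log 2 (n - 1)

/-- index of the cell containing `n` -/
noncomputable def kx (n : ℕ) : ℕ := (n - 1 - 2 ^ sc n) / hh E.δ (sc n)

/-- size of the perturbation at the control primes of the first kind -/
noncomputable def gu (j p : ℕ) : ℝ :=
  if E.U j p then
    if p ≤ 2 ^ j then 8 * j / ((E.UB j).card : ℝ)
    else if E.kx p ∈ E.Bad (sc p) then 0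
    else E.w (sc p) / (((cell E.δ (sc p) (E.kx p)).filter E.isU).card : ℝ)
  else 0

/-- size of the perturbation at the host primes -/
noncomputable def gh (j q : ℕ) : ℝ :=
  ∑ i ∈ (range (2 * Nat.log 2 q + 3)).filter (fun i => j ≤ i), ∑ k ∈ E.Bad i,
    ∑ n ∈ (E.Host j i k).filter (fun n => lp n = q),
      E.w i / ((E.Host j i k).card : ℝ) * ((n : ℝ) / q)

/-- total size of the perturbation -/
noncomputable def g (j p : ℕ) : ℝ := E.gu j p + E.gh j p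

/-- `∏_{p | n} (1 + 2 p g(p))` -/
noncomputable def E2 (j n : ℕ) : ℝ := ∏ p ∈ n.primeFactors, (1 + 2 * (p * E.g j p))

/-- the squarefree `R`-rough elements of a cell -/
noncomputable def cs (R i k : ℕ) : Finset ℕ :=
  (cell E.δ i k).filter (fun n => Squarefree n ∧ Rough R n)

/-! ### the statements -/

/-- (HC) number of hosts -/
def HCount : Prop := ∃ J : ℕ, ∀ j : ℕ, J ≤ j → ∀ i : ℕ, j ≤ i → ∀ k ∈ E.Bad i,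
  E.cH / 2 * hh E.δ i / i ≤ ((E.Host j i k).card : ℝ)

/-- (GB) bounds for the sizes of the perturbations -/
def GBounds : Prop := ∃ J : ℕ, 1 ≤ J ∧ ∀ j : ℕ, J ≤ j →
  (E.cU / 2 * 2 ^ (j - 1) / (j : ℝ) ^ 4 ≤ ((E.UB j).card : ℝ)) ∧
  (∀ p : ℕ, 0 ≤ E.gu j p) ∧ (∀ q : ℕ, 0 ≤ E.gh j q) ∧
  (∀ p : ℕ, E.gu j p ≠ 0 → E.U j p) ∧
  (∀ q : ℕ, E.gh j q ≠ 0 → E.H j q ∧ ¬ E.U j q ∧ 1 ≤ q * E.gh j q) ∧
  (∀ p : ℕ, E.U j p → j - 1 ≤ sc p ∧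
    1 + 2 * (p * E.gu j p) ≤ (2 : ℝ) ^ (E.δ / 2 * sc p) / (sc p : ℝ) ^ 35) ∧
  (∀ q : ℕ, E.gh j q ≠ 0 → (2 : ℝ) ^ ((j : ℝ) / 2) ≤ q ∧ 1 + 2 * (q * E.gh j q) ≤ (q : ℝ) ^ (9 * E.δ)) ∧
  (∀ P : Finset ℕ, ∑ q ∈ P, (q * E.gh j q) * (q : ℝ) ^ (-1 + E.τ / 4) ≤ 1 / j) ∧
  (∀ P : Finset ℕ, ∑ p ∈ P, E.gu j p * (p : ℝ) ^ (-E.δ / 2) ≤ 1 / j)

/-- (ES) the Euler product sum is small -/
def ESum : Prop := ∀ η : ℝ, 0 < η → ∃ R₀ : ℕ, ∀ R : ℕ, R₀ ≤ R → ∃ J : ℕ, ∀ j : ℕ, J ≤ j →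
  ∀ M : ℕ, ∑ t ∈ (Icc 2 M).filter (fun t => Squarefree t ∧ Rough R t),
    E.E2 j t / t * (t : ℝ) ^ (-E.δ / 2) ≤ η

/-- (UP) contribution of the large control primes of the first kind -/
def UPart : Prop := ∃ R₀ : ℕ, ∀ R : ℕ, R₀ ≤ R → ∃ J : ℕ, ∀ j : ℕ, J ≤ j → ∀ i : ℕ, j ≤ i →
  ∀ k : ℕ, k < nc E.δ i →
    ∑ n ∈ E.cs R i k, ∑ p ∈ n.primeFactors.filter (fun p : ℕ => (2 : ℝ) ^ (3 / 5 * (i : ℝ)) < p),
      E.gu j p * (E.E2 j (n / p) / ((n / p : ℕ) : ℝ)) ≤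
        (if k ∈ E.Bad i then 0 else E.w i) + E.w i / 16

/-- (HP) contribution of the host primes `> 2^(i/20)` -/
def HPart : Prop := ∃ R₀ : ℕ, ∀ R : ℕ, R₀ ≤ R → ∃ J : ℕ, ∀ j : ℕ, J ≤ j → ∀ i : ℕ, j ≤ i →
  ∀ k : ℕ, k < nc E.δ i →
    ∑ n ∈ E.cs R i k, ∑ q ∈ n.primeFactors.filter (fun q : ℕ => (2 : ℝ) ^ (1 / 20 * (i : ℝ)) < q),
      E.gh j q * (E.E2 j (n / q) / ((n / q : ℕ) : ℝ)) ≤
        (if k ∈ E.Bad i then E.w i else 0) + E.w i / 16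

/-- the sizes of the small control primes, relative to scale `i` -/
noncomputable def gs (j i p : ℕ) : ℝ :=
  (if (p : ℝ) ≤ (2 : ℝ) ^ (3 / 5 * (i : ℝ)) then E.gu j p else 0) +
  (if (p : ℝ) ≤ (2 : ℝ) ^ (1 / 20 * (i : ℝ)) then E.gh j p else 0)

/-- (SP) contribution of the small control primes -/
def SPart : Prop := ∃ J : ℕ, ∀ j : ℕ, J ≤ j → ∀ i : ℕ, j ≤ i → ∀ k : ℕ, k < nc E.δ i →
    ∑ n ∈ (cell E.δ i k).filter Squarefree,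
      (1 / (n : ℝ)) * ∏ p ∈ n.primeFactors, (1 + 2 * (p * E.gs j i p)) ≤ E.w i / 16

/-- the part of the host sum which comes from the bad cell `(i', k')`, restricted to pairs `(n₁, n)`
satisfying `P`; here `n₁` runs through the hosts of `(i', k')`, `n` through the cell `(i, k)` -/
noncomputable def HT (j R i k i' k' : ℕ) (P : ℕ → ℕ → Prop) : ℝ :=
  ∑ u ∈ ((E.Host j i' k') ×ˢ (E.cs R i k)).filter (fun u : ℕ × ℕ =>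
      lp u.1 ∣ u.2 ∧ (2 : ℝ) ^ (1 / 20 * (i : ℝ)) < lp u.1 ∧ P u.1 u.2),
    E.w i' / ((E.Host j i' k').card : ℝ) * ((u.1 : ℝ) / u.2) * E.E2 j (u.2 / lp u.1)

/-- (H1) hosts of cells of scale `< (1-τ) i` -/
def HP1 : Prop := ∃ J : ℕ, ∀ j : ℕ, J ≤ j → ∀ R i k : ℕ, j ≤ i → k < nc E.δ i →
  ∑ i' ∈ (range (2 * i + 3)).filter (fun i' : ℕ => j ≤ i' ∧ (i' : ℝ) < (1 - E.τ) * i),
    ∑ k' ∈ E.Bad i', E.HT j R i k i' k' (fun _ _ => True) ≤ E.w i / 64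

/-- (HB) hosts of cells of scale `≥ (1-τ) i`, pairs with `n₁ ∤ n` -/
def HPB : Prop := ∃ J : ℕ, ∀ j : ℕ, J ≤ j → ∀ R i k : ℕ, j ≤ i → k < nc E.δ i →
  ∑ i' ∈ (range (2 * i + 3)).filter (fun i' : ℕ => j ≤ i' ∧ (1 - E.τ) * i ≤ (i' : ℝ)),
    ∑ k' ∈ E.Bad i', E.HT j R i k i' k' (fun a b => ¬ a ∣ b) ≤ E.w i / 64

/-- (HA) hosts of cells of scale `≥ (1-τ) i`, pairs with `n₁ ∣ n` -/
def HPA : Prop := ∃ R₀ : ℕ, ∀ R : ℕ, R₀ ≤ R → ∃ J : ℕ, ∀ j : ℕ, J ≤ j → ∀ i k : ℕ, j ≤ i →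
  k < nc E.δ i →
  ∑ i' ∈ (range (2 * i + 3)).filter (fun i' : ℕ => j ≤ i' ∧ (1 - E.τ) * i ≤ (i' : ℝ)),
    ∑ k' ∈ E.Bad i', E.HT j R i k i' k' (fun a b => a ∣ b) ≤
      (if k ∈ E.Bad i then E.w i else 0) + E.w i / 64

/-- (PB) pairs with a large common prime factor -/
def PairB (τ δ : ℝ) : Prop := ∃ J : ℕ, ∀ i i' : ℕ, J ≤ i → (1 - τ) * i ≤ i' → i' ≤ 2 * i + 2 →
  ∀ x x' : ℕ, 2 ^ i ≤ x → x ≤ 2 ^ (i + 1) → 2 ^ i' ≤ x' → x' ≤ 2 ^ (i' + 1) →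
    ((((Ioc x' (x' + hh δ i')) ×ˢ (Ioc x (x + hh δ i))).filter (fun u : ℕ × ℕ =>
      ∃ m q : ℕ, u.1 = m * q ∧ q.Prime ∧ (2 : ℝ) ^ ((1 / 2 + τ) * i') ≤ q ∧
        Rough ((2 : ℝ) ^ (τ * i')) m ∧ q ∣ u.2 ∧ ¬ u.1 ∣ u.2)).card : ℝ) ≤
      hh δ i * (2 : ℝ) ^ (-(τ / 4) * i)

end Env

end Pool.Agent.W76.MO
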