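import Pool.Agent.W76.MO.Defs

/-!
# MP_a187e6_nt: statements of the pieces of the inputs `FewBad` and `Hosts`
-/

set_option autoImplicit false

namespace Pool.Agent.W76.MO

open Finset Filter Topology
open scoped Classical

/-! ### primes in almost all short intervals under RH -/

/-- the properties of `A(s) = -ζ'/ζ(s) - 1/(s-1)` which are used -/
structure IsA (A : ℂ → ℂ) : Prop where
  diff : DifferentiableOn ℂ A {s : ℂ | 1 / 2 < s.re}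
  eq : ∀ s : ℂ, 1 < s.re →
    A s = LSeries (fun n => (ArithmeticFunction.vonMangoldt n : ℂ)) s - 1 / (s - 1)
  bound : ∀ σ₀ : ℝ, 1 / 2 < σ₀ → ∃ C : ℝ, 0 < C ∧ ∀ s : ℂ, σ₀ ≤ s.re → s.re ≤ 2 →
    ‖A s‖ ≤ C * Real.log (|s.im| + 3)

/-- (ZA) -/
def ZA : Prop := RiemannHypothesis → ∃ A : ℂ → ℂ, IsA A

/-- Gaussian weighted prime sum -/
noncomputable def DG (η y : ℝ) : ℝ :=
  ∑' n : ℕ, ArithmeticFunction.vonMangoldt n *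
    Real.exp (-(Real.log n - Real.log y) ^ 2 / (2 * η ^ 2))

/-- its main term -/
noncomputable def MG (η y : ℝ) : ℝ :=
  ∫ x in Set.Ioi (1 : ℝ), Real.exp (-(Real.log x - Real.log y) ^ 2 / (2 * η ^ 2))

/-- (GI) -/
def GaussId : Prop := ∀ A : ℂ → ℂ, IsA A → ∀ σ₀ η y : ℝ, 1 / 2 < σ₀ → σ₀ < 1 → 0 < η → η ≤ 1 →
  1 ≤ y → ((DG η y - MG η y : ℝ) : ℂ) = ((η / Real.sqrt (2 * Real.pi) : ℝ) : ℂ) *
    ∫ t : ℝ, A ((σ₀ : ℂ) + t * Complex.I) *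
      Complex.exp ((η : ℂ) ^ 2 / 2 * ((σ₀ : ℂ) + t * Complex.I) ^ 2 +
        ((σ₀ : ℂ) + t * Complex.I) * Real.log y)

/-- (BC) the number of well spaced points where the Gaussian sum is far from its main term -/
def BadCount : Prop := RiemannHypothesis → ∀ σ₀ c : ℝ, 1 / 2 < σ₀ → σ₀ < 1 → 0 < c →
  ∃ C : ℝ, 0 < C ∧ ∀ X η : ℝ, 2 ≤ X → 1 / X ≤ η → η ≤ 1 → ∀ Y : Finset ℝ,
    (∀ y ∈ Y, X ≤ y ∧ y ≤ 2 * X) → (∀ y ∈ Y, ∀ y' ∈ Y, y ≠ y' → η * X ≤ |y - y'|) →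
    (∀ y ∈ Y, c * (η * X) ≤ |DG η y - MG η y|) →
      (Y.card : ℝ) ≤ C * (Real.log X) ^ 2 * X ^ (2 * σ₀ - 2) / η ^ 2

/-- (CL) a cell with few primes has a Gaussian sum far from its main term -/
def CellLow : Prop := ∃ c L : ℝ, 0 < c ∧ 1 ≤ L ∧ ∀ δ : ℝ, 0 < δ → δ < 1 / 4 →
  ∃ i₀ : ℕ, 1 ≤ i₀ ∧ ∀ i : ℕ, i₀ ≤ i → ∀ k : ℕ, k < nc δ i →
    (((cell δ i k).filter Nat.Prime).card : ℝ) < c * hh δ i / i →
      c * (hh δ i / (L * 2 ^ i) * 2 ^ i) ≤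
        |DG (hh δ i / (L * 2 ^ i)) (2 ^ i + (k + 1 / 2) * hh δ i) -
          MG (hh δ i / (L * 2 ^ i)) (2 ^ i + (k + 1 / 2) * hh δ i)|

/-! ### hosts -/

/-- (FS) sums of fractional parts -/
def FracSum : Prop := ∃ η τ₀ C : ℝ, 0 < η ∧ 0 < τ₀ ∧ 0 < C ∧ ∀ i k N N' y : ℕ, 1 ≤ i → 1 ≤ k →
  (k : ℝ) ≤ (2 : ℝ) ^ (η * i) → (2 : ℝ) ^ ((1 / 2 - τ₀) * i) ≤ N → N ≤ N' → N' ≤ 2 * N →
  (N : ℝ) ≤ (2 : ℝ) ^ ((1 / 2 + τ₀) * i) → 2 ^ i ≤ y → y ≤ 2 ^ (i + 2) →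
    |∑ n ∈ Ioc N N', (Int.fract ((y : ℝ) / (k * n)) - 1 / 2)| ≤ C * (2 : ℝ) ^ ((1 / 2 - η) * i)

/-- (MR) products `p m` in short intervals, `p ≈ √x` prime, `m` rough -/
def MidRange : Prop := ∃ C τ₁ : ℝ, 0 < C ∧ 0 < τ₁ ∧ ∀ γ δ : ℝ, 0 < γ → γ ≤ τ₁ → 0 < δ → δ ≤ τ₁ →
  ∃ i₀ : ℕ, 1 ≤ i₀ ∧ ∀ i : ℕ, i₀ ≤ i → ∀ a N : ℕ, 2 ^ i ≤ a → a ≤ 2 ^ (i + 1) →
    (2 : ℝ) ^ ((1 / 2 - τ₁) * i) ≤ N → (N : ℝ) ≤ (2 : ℝ) ^ ((1 / 2 + τ₁) * i) →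
    ((((Ioc N (2 * N)) ×ˢ (range (2 ^ (i + 2)))).filter (fun u : ℕ × ℕ => u.1.Prime ∧
      a < u.1 * u.2 ∧ u.1 * u.2 ≤ a + hh δ i ∧ Rough ((2 : ℝ) ^ (γ * i)) u.2)).card : ℝ) ≤
        C * hh δ i / (γ * (i : ℝ) ^ 2)

/-! ### the tasks -/

/-- task BTR -/
def T_BTR : Prop := BTR
/-- task ZA -/
def T_ZA : Prop := ZA
/-- task GI -/
def T_GI : Prop := GaussId
/-- task BC -/
def T_BC : Prop := ZA → GaussId → BadCount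
/-- task CL -/
def T_CL : Prop := BTR → CellLow
/-- task FB -/
def T_FB : Prop := BadCount → CellLow → FewBad
/-- task FS -/
def T_FS : Prop := FracSum
/-- task MR -/
def T_MR : Prop := FracSum → MidRange
/-- task HO -/
def T_HO : Prop := BTR → MidRange → Hosts
/-- task NRH -/
def T_NRH : Prop := NotRH
/-- task US -/
def T_US : Prop := BTR → FewBad → RiemannHypothesis → USet
/-- task HC -/
def T_HC : Prop := ∀ E : Env, E.HCount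
/-- task GB -/
def T_GB : Prop := ∀ E : Env, E.HCount → E.GBounds
/-- task ES -/
def T_ES : Prop := ∀ E : Env, E.GBounds → E.ESum
/-- task UP -/
def T_UP : Prop := ∀ E : Env, E.GBounds → E.ESum → E.UPart
/-- task SP -/
def T_SP : Prop := ∀ E : Env, E.GBounds → E.SPart
/-- task PB -/
def T_PB : Prop := ∀ τ δ : ℝ, 0 < τ → τ ≤ 1 / 100 → 0 < δ → δ ≤ τ / 1000 → Env.PairB τ δ
/-- task H1 -/
def T_H1 : Prop := ∀ E : Env, E.HCount → E.GBounds → E.HP1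
/-- task HB -/
def T_HB : Prop := ∀ E : Env, E.HCount → E.GBounds → Env.PairB E.τ E.δ → E.HPB
/-- task HA -/
def T_HA : Prop := ∀ E : Env, E.HCount → E.GBounds → E.ESum → E.HPA
/-- task HX -/
def T_HX : Prop := ∀ E : Env, E.GBounds → E.HP1 → E.HPA → E.HPB → E.HPart

end Pool.Agent.W76.MO
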