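import Pool.Agent.W76.MO.Asm6
import Pool.Agent.W76.MO.Stmts

/-!
# Reduction of the main theorem to the tasks
-/

set_option autoImplicit false

namespace Pool.Agent.W76.MO

open Finset
open scoped Classical

theorem env_concl (E : Env) (hHC : E.HCount) (hGB : E.GBounds) (hU : E.UPart) (hH : E.HPart)
    (hS : E.SPart) : Concl := by
  obtain ⟨R, j, z, h1, h2, h3, h4, h5, h6, h7⟩ := E.system hGB hHC (E.key hGB hU hH hS)
  exact (Env.Sol.mk h1 h2 h3 h4 h5 h6 h7 : Env.Sol E R j z).concl

/-- all the pieces together -/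
theorem main_of (BTRh : T_BTR) (ZAh : T_ZA) (GIh : T_GI) (BCh : T_BC) (CLh : T_CL) (FBh : T_FB)
    (HOh : Hosts) (NRHh : T_NRH) (USh : T_US) (HCh : T_HC) (GBh : T_GB)
    (ESh : T_ES) (UPh : T_UP) (SPh : T_SP) (PBh : T_PB) (H1h : T_H1) (HBh : T_HB) (HAh : T_HA)
    (HXh : T_HX) : Concl := by
  by_cases hRH : RiemannHypothesis
  swap
  · exact NRHh hRH
  have hFew : FewBad := FBh (BCh ZAh GIh) (CLh BTRh)
  obtain ⟨τ₀, γ₀, c, δ₀, hτ₀, hγ₀, hc, hδ₀, hhost⟩ := HOh
  set τ : ℝ := min (min τ₀ γ₀) (1 / 100) with hτd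
  have hτ : 0 < τ := lt_min (lt_min hτ₀ hγ₀) (by norm_num)
  have hτ1 : τ ≤ 1 / 100 := min_le_right _ _
  set δ : ℝ := min δ₀ (τ / 1000) with hδd
  have hδ : 0 < δ := lt_min hδ₀ (by positivity)
  have hδ1 : δ ≤ τ / 1000 := min_le_right _ _
  obtain ⟨i₀, hi₀, hhost⟩ := hhost δ hδ (min_le_left _ _)
  obtain ⟨isU, CU, cU, i₁, hCU, hcU, hi₁, hup, huu, hub⟩ := USh BTRh hFew hRH τ δ hτ hτ1 hδ hδ1
  obtain ⟨CB, hCB, i₂, hi₂, hbtr⟩ := BTRh τ (τ / 4) hτ (by positivity)
  let E : Env :=
    { τ := τ, δ := δ, CU := CU, cU := cU, cH := c, CB := max CB 1, isU := isU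
      i₁ := i₀ + i₁ + i₂
      hτ := hτ, hτ' := hτ1, hδ := hδ, hδ' := hδ1, hCU := hCU, hcU := hcU, hcH := hc
      hCB := le_max_right _ _
      hi₁ := by omega
      u_prime := hup
      u_up := fun i hi => huu i (by omega)
      u_bad := fun i hi => hub i (by omega)
      host := by
        intro i hi k hk
        have hmul := nc_mul δ hδ i
        have hlt : (k + 1) * hh δ i ≤ nc δ i * hh δ i := Nat.mul_le_mul_right _ hk
        have h1 := hhost i (by omega) (2 ^ i + k * hh δ i) (by omega) (by
          rw [pow_succ]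
          have : k * hh δ i ≤ (k + 1) * hh δ i := Nat.mul_le_mul_right _ (Nat.le_succ k)
          omega)
        refine h1.trans ?_
        have hi0 : (0 : ℝ) ≤ i := Nat.cast_nonneg i
        have hsub : (Ioc (2 ^ i + k * hh δ i) (2 ^ i + k * hh δ i + hh δ i)).filter
            (HostNum τ₀ γ₀ i) ⊆ (cell δ i k).filter (HostNum τ τ i) := by
          intro n hn
          rw [mem_filter, mem_Ioc] at hn
          rw [mem_filter]
          refine ⟨?_, ?_⟩
          · unfold cell
            rw [mem_Ioc]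
            have : (k + 1) * hh δ i = k * hh δ i + hh δ i := by ring
            omega
          · obtain ⟨m, q, h1, h2, h3, h4, h5, h6⟩ := hn.2
            refine ⟨m, q, h1, h2, ?_, h4, h5, ?_⟩
            · refine le_trans (Real.rpow_le_rpow_of_exponent_le (by norm_num) ?_) h3
              have : τ ≤ τ₀ := (min_le_left _ _).trans (min_le_left _ _)
              apply mul_le_mul_of_nonneg_right _ hi0
              linarith
            · intro p hp hpm
              refine le_trans (Real.rpow_le_rpow_of_exponent_le (by norm_num) ?_) (h6 p hp hpm)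
              have : τ ≤ γ₀ := (min_le_left _ _).trans (min_le_right _ _)
              exact mul_le_mul_of_nonneg_right this hi0
        exact_mod_cast Finset.card_le_card hsub
      btr := by
        intro i hi a L hL
        refine (hbtr i (by omega) a L hL).trans ?_
        have hi0 : (0 : ℝ) < i := by
          have : 0 < i := by omega
          exact_mod_cast this
        gcongr
        exact le_max_left _ _ }
  have hHC := HCh E
  have hGB := GBh E hHC
  have hES := ESh E hGB
  have hUP := UPh E hGB hES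
  have hSP := SPh E hGB
  have hPB := PBh τ δ hτ hτ1 hδ hδ1
  have hHP := HXh E hGB (H1h E hHC hGB) (HAh E hHC hGB hES) (HBh E hHC hGB hPB)
  exact env_concl E hHC hGB hUP hHP hSP

end Pool.Agent.W76.MO
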