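import Pool.Agent.W76.MO.Fin0
import Pool.Agent.W761.MO.BTR
import Pool.Agent.W613.MO.ZA
import Pool.Agent.W475.MO.GI
import Pool.Agent.W726.MO.BC
import Pool.Agent.W815.MO.CL
import Pool.Agent.W475.MO.FB
import Pool.Agent.W565.MOFS
import Pool.Agent.W86.MO.NRH
import Pool.Agent.W377.MO.US
import Pool.Agent.W501.MO.HC
import Pool.Agent.W683.MO.GB
import Pool.Agent.W280.MO.ES
import Pool.Agent.W596.MO.UP
import Pool.Agent.W683.MO.SP
import Pool.Agent.W1.MO.PB
import Pool.Agent.W640.MO.H1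
import Pool.Agent.W356.MO.HB
import Pool.Agent.W326.MO.HA3
import Pool.Agent.W356.MO.HX

/-!
# Everything except the hosts
-/

set_option autoImplicit false

namespace Pool.Agent.W76.MO

theorem main_of_hosts (hH : Hosts) : Concl :=
  main_of Pool.Agent.W761.MO.btr Pool.Agent.W613.MO.za Pool.Agent.W475.MO.gi
    Pool.Agent.W726.MOBC.main Pool.Agent.W815.CL.cellLow Pool.Agent.W475.MO.fb hH
    Pool.Agent.W86.MO.task_NRH Pool.Agent.W377.MOUS.us Pool.Agent.W501.MO.hc
    Pool.Agent.W683.MO.gb Pool.Agent.W280.MO.T_ES_proof Pool.Agent.W596.MO.upart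
    Pool.Agent.W683.MO.sp Pool.Agent.W1.MO.pb Pool.Agent.W640.MO.h1 Pool.Agent.W356.MO.HB
    Pool.Agent.W326.MO.task_HA Pool.Agent.W356.MO.HX

end Pool.Agent.W76.MO
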