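import Pool.Agent.W76.MO.Fin1
import Pool.Agent.W161.MO.MR3
import Pool.Agent.W544.MO.Ho

/-!
# The main theorem
-/

set_option autoImplicit false

namespace Pool.Agent.W76.MO

theorem midRange : MidRange := Pool.Agent.W161.MO.midRange Pool.Agent.W565.MOFS.FS

theorem main (hHO : T_HO) : Concl := main_of_hosts (hHO Pool.Agent.W761.MO.btr midRange)

theorem concl : Concl := main Pool.Agent.W544.MO.main

end Pool.Agent.W76.MO
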