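import Pool.Agent.W76.MO.Defs

/-!
# Pointwise inequalities for products over primes
-/

set_option autoImplicit false

namespace Pool.Agent.W76.MO

open Finset

/-- first order mass -/
noncomputable def TT (P : Finset ℕ) (G : ℕ → ℝ) : ℝ := ∑ p ∈ P, G p * ∏ q ∈ P.erase p, (1 + G q)

lemma sum_insert_erase (a : ℕ) (P : Finset ℕ) (ha : a ∉ P) (u v : ℕ → ℝ) :
    ∑ p ∈ insert a P, u p * ∏ q ∈ (insert a P).erase p, v q =
      u a * ∏ q ∈ P, v q + v a * ∑ p ∈ P, u p * ∏ q ∈ P.erase p, v q := by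
  rw [sum_insert ha, erase_insert ha, mul_sum]
  congr 1
  refine sum_congr rfl fun p hp => ?_
  have hne : a ≠ p := fun h => ha (h ▸ hp)
  rw [erase_insert_of_ne hne, prod_insert (fun h => ha (mem_of_mem_erase h))]
  ring

lemma TT_insert (a : ℕ) (P : Finset ℕ) (ha : a ∉ P) (G : ℕ → ℝ) :
    TT (insert a P) G = G a * ∏ q ∈ P, (1 + G q) + (1 + G a) * TT P G :=
  sum_insert_erase a P ha G (fun q => 1 + G q)

lemma TT_nonneg (P : Finset ℕ) (G : ℕ → ℝ) (hG : ∀ p, 0 ≤ G p) : 0 ≤ TT P G :=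
  sum_nonneg fun p _ => mul_nonneg (hG p) (prod_nonneg fun q _ => by linarith [hG q])

lemma one_le_prod1 (P : Finset ℕ) (v : ℕ → ℝ) (hv : ∀ p, 0 ≤ v p) : 1 ≤ ∏ p ∈ P, (1 + v p) := by
  induction P using Finset.induction_on with
  | empty => simp
  | insert a P ha ih =>
    rw [prod_insert ha]
    nlinarith [hv a]

lemma split_all (P : Finset ℕ) (u s : ℕ → ℝ) (hu : ∀ p, 0 ≤ u p) (hs : ∀ p, 0 ≤ s p) :
    (∏ p ∈ P, (1 + (u p + s p)) + TT P (fun p => u p + s p) ≤ ∏ p ∈ P, (1 + 2 * (u p + s p))) ∧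
    (TT P (fun p => u p + s p) ≤ ∑ p ∈ P, u p * ∏ q ∈ P.erase p, (1 + 2 * (u q + s q)) +
      ∏ p ∈ P, (1 + 2 * s p)) ∧
    (∏ p ∈ P, (1 + (u p + s p)) + TT P (fun p => u p + s p) ≤
      2 * ∑ p ∈ P, u p * ∏ q ∈ P.erase p, (1 + 2 * (u q + s q)) + ∏ p ∈ P, (1 + 2 * s p)) := by
  induction P using Finset.induction_on with
  | empty => simp [TT]
  | insert a P ha ih =>
    rw [TT_insert a P ha, sum_insert_erase a P ha u (fun q => 1 + 2 * (u q + s q)),
      prod_insert ha, prod_insert ha, prod_insert ha]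
    obtain ⟨h0, h1, h2⟩ := ih
    have hua := hu a
    have hsa := hs a
    have hE1 : 1 ≤ ∏ p ∈ P, (1 + (u p + s p)) := one_le_prod1 P _ fun p => add_nonneg (hu p) (hs p)
    have hT : 0 ≤ TT P (fun p => u p + s p) := TT_nonneg P _ fun p => add_nonneg (hu p) (hs p)
    have hA : 0 ≤ ∑ p ∈ P, u p * ∏ q ∈ P.erase p, (1 + 2 * (u q + s q)) :=
      sum_nonneg fun p _ => mul_nonneg (hu p) (prod_nonneg fun q _ => by linarith [hu q, hs q])
    have hB : 1 ≤ ∏ p ∈ P, (1 + 2 * s p) := one_le_prod1 P (fun p => 2 * s p) fun p => by linarith [hs p]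
    set E1 := ∏ p ∈ P, (1 + (u p + s p)) with hE1d
    set T := TT P (fun p => u p + s p) with hTd
    set E2 := ∏ p ∈ P, (1 + 2 * (u p + s p)) with hE2d
    set A := ∑ p ∈ P, u p * ∏ q ∈ P.erase p, (1 + 2 * (u q + s q)) with hAd
    set B := ∏ p ∈ P, (1 + 2 * s p) with hBd
    have k1 : 0 ≤ u a * (E2 - (E1 + T)) := mul_nonneg hua (by linarith)
    have k2 : 0 ≤ s a * (E2 - (E1 + T)) := mul_nonneg hsa (by linarith)
    have k3 : 0 ≤ s a * (2 * A + B - (E1 + T)) := mul_nonneg hsa (by linarith)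
    have k4 : 0 ≤ u a * A := mul_nonneg hua hA
    have k5 : 0 ≤ s a * B := mul_nonneg hsa (by linarith)
    have k6 : 0 ≤ u a * T := mul_nonneg hua hT
    have k7 : 0 ≤ s a * T := mul_nonneg hsa hT
    have k8 : 0 ≤ s a * A := mul_nonneg hsa hA
    have k9 : 0 ≤ u a * E1 := mul_nonneg hua (by linarith)
    have k10 : 0 ≤ u a * B := mul_nonneg hua (by linarith)
    refine ⟨?_, ?_, ?_⟩
    · nlinarith
    · nlinarith
    · nlinarith

/-- perturbation of a product -/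
lemma perturb (P : Finset ℕ) (x g g' G : ℕ → ℝ) (ε : ℝ) (hx : ∀ p, 0 ≤ x p)
    (hε : 0 ≤ ε) (hg : ∀ p, |g p| ≤ G p) (hg' : ∀ p, |g' p| ≤ G p)
    (hgg : ∀ p, |g p - g' p| ≤ ε * G p) :
    (|∏ p ∈ P, (g p - x p)| ≤ ∏ p ∈ P, (x p + G p)) ∧
    (|∏ p ∈ P, (g p - x p) - ∏ p ∈ P, (g' p - x p)| ≤
      ε * ∑ p ∈ P, G p * ∏ q ∈ P.erase p, (x q + G q)) := by
  have hG : ∀ p, 0 ≤ G p := fun p => (abs_nonneg _).trans (hg p)
  have hb : ∀ p, |g p - x p| ≤ x p + G p := fun p => by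
    have h1 := abs_sub (g p) (x p)
    rw [abs_of_nonneg (hx p)] at h1
    linarith [hg p]
  have hb' : ∀ p, |g' p - x p| ≤ x p + G p := fun p => by
    have h1 := abs_sub (g' p) (x p)
    rw [abs_of_nonneg (hx p)] at h1
    linarith [hg' p]
  induction P using Finset.induction_on with
  | empty => simp
  | insert a P ha ih =>
    obtain ⟨h1, h2⟩ := ih
    rw [sum_insert_erase a P ha G (fun q => x q + G q), prod_insert ha, prod_insert ha,
      prod_insert ha]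
    set A := ∏ p ∈ P, (g p - x p) with hA
    set A' := ∏ p ∈ P, (g' p - x p) with hA'
    set B := ∏ p ∈ P, (x p + G p) with hB
    set S := ∑ p ∈ P, G p * ∏ q ∈ P.erase p, (x q + G q) with hS
    have hB0 : 0 ≤ B := (abs_nonneg _).trans h1
    have hxa : 0 ≤ x a + G a := add_nonneg (hx a) (hG a)
    refine ⟨?_, ?_⟩
    · rw [abs_mul]
      exact mul_le_mul (hb a) h1 (abs_nonneg _) hxa
    · have e : (g a - x a) * A - (g' a - x a) * A' = (g a - g' a) * A + (g' a - x a) * (A - A') := by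
        ring
      rw [e]
      refine (abs_add_le _ _).trans ?_
      rw [abs_mul, abs_mul]
      have t1 : |g a - g' a| * |A| ≤ (ε * G a) * B :=
        mul_le_mul (hgg a) h1 (abs_nonneg _) (mul_nonneg hε (hG a))
      have t2 : |g' a - x a| * |A - A'| ≤ (x a + G a) * (ε * S) :=
        mul_le_mul (hb' a) h2 (abs_nonneg _) hxa
      calc |g a - g' a| * |A| + |g' a - x a| * |A - A'|
          ≤ (ε * G a) * B + (x a + G a) * (ε * S) := add_le_add t1 t2
        _ = ε * (G a * B + (x a + G a) * S) := by ring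

/-- for squarefree `n`: `∏_{p | n} (1/p + g p) = (1/n) ∏ (1 + p g p)` -/
lemma prod_scale (n : ℕ) (hn : Squarefree n) (g : ℕ → ℝ) :
    ∏ p ∈ n.primeFactors, (1 / (p : ℝ) + g p) =
      (1 / (n : ℝ)) * ∏ p ∈ n.primeFactors, (1 + p * g p) := by
  have h1 : (n : ℝ) = ∏ p ∈ n.primeFactors, (p : ℝ) := by
    conv_lhs => rw [← Nat.prod_primeFactors_of_squarefree hn]
    push_cast
    rfl
  have h2 : (1 / (n : ℝ)) = ∏ p ∈ n.primeFactors, (1 / (p : ℝ)) := by
    rw [h1, prod_div_distrib, prod_const_one]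
  rw [h2, ← prod_mul_distrib]
  refine prod_congr rfl fun p hp => ?_
  have hp0 : (p : ℝ) ≠ 0 := by exact_mod_cast (Nat.prime_of_mem_primeFactors hp).ne_zero
  field_simp

lemma primeFactors_div (n p : ℕ) (hn : Squarefree n) (hp : p ∈ n.primeFactors) :
    (n / p).primeFactors = n.primeFactors.erase p := by
  have hpp := Nat.prime_of_mem_primeFactors hp
  have hpn := Nat.dvd_of_mem_primeFactors hp
  have hn0 : n ≠ 0 := hn.ne_zero
  ext q
  rw [mem_erase, Nat.mem_primeFactors, Nat.mem_primeFactors]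
  obtain ⟨m, rfl⟩ := hpn
  have hm0 : m ≠ 0 := fun h => hn0 (by rw [h, mul_zero])
  rw [Nat.mul_div_cancel_left m hpp.pos]
  constructor
  · rintro ⟨hq, hqm, _⟩
    refine ⟨?_, hq, hqm.mul_left p, hn0⟩
    rintro rfl
    have := Nat.squarefree_mul_iff.1 hn
    exact (Nat.Prime.coprime_iff_not_dvd hq).1 this.1 hqm
  · rintro ⟨hne, hq, hqn, _⟩
    refine ⟨hq, ?_, hm0⟩
    rcases (Nat.Prime.dvd_mul hq).1 hqn with h | h
    · exact absurd ((Nat.prime_dvd_prime_iff_eq hq hpp).1 h) hne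
    · exact h

lemma cast_div_prime (n p : ℕ) (hp : p ∈ n.primeFactors) :
    ((n / p : ℕ) : ℝ) = (n : ℝ) / p :=
  Nat.cast_div (Nat.dvd_of_mem_primeFactors hp)
    (by exact_mod_cast (Nat.prime_of_mem_primeFactors hp).ne_zero)

/-- `∑_p g(p) ∏_{q ≠ p} (1/q + g q) = (1/n) TT` -/
lemma sum_scale (n : ℕ) (hn : Squarefree n) (g : ℕ → ℝ) :
    ∑ p ∈ n.primeFactors, g p * ∏ q ∈ n.primeFactors.erase p, (1 / (q : ℝ) + g q) =
      (1 / (n : ℝ)) * TT n.primeFactors (fun p => p * g p) := by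
  unfold TT
  rw [mul_sum]
  refine sum_congr rfl fun p hp => ?_
  have hpp := Nat.prime_of_mem_primeFactors hp
  have hpn := Nat.dvd_of_mem_primeFactors hp
  have hsq : Squarefree (n / p) := hn.squarefree_of_dvd (Nat.div_dvd_of_dvd hpn)
  have h1 := prod_scale (n / p) hsq g
  rw [primeFactors_div n p hn hp] at h1
  rw [h1, cast_div_prime n p hp]
  have hp0 : (p : ℝ) ≠ 0 := by exact_mod_cast hpp.ne_zero
  have hn0 : (n : ℝ) ≠ 0 := by exact_mod_cast hn.ne_zero
  field_simp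

end Pool.Agent.W76.MO
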